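import Pool.Agent.Helper30.AF.Defs

/-!
# Almost flat manifolds: the data of the construction

`AFData d` packages a lattice `lat` in the kernel of a linear functional `t` on `ℝ^d`, an
automorphism `A` of `ℝ^d` preserving `t`, `e` and `lat`, and functionals `ell i` to `ℂ` with
`ell i (A u) = c i * ell i u`, `‖c i‖ = exp (a i * L)`, `|a i| ≤ 1`.
-/

open scoped Manifold ContDiff Topology ENNReal ComplexConjugate

noncomputable section

namespace Pool.Agent.Helper30.AF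

/-- The model space `ℝ^d` with its Euclidean structure. -/
abbrev E (d : ℕ) : Type := EuclideanSpace ℝ (Fin d)

/-- Bilinear forms on `ℝ^d`. -/
abbrev Form (d : ℕ) : Type := E d →L[ℝ] E d →L[ℝ] ℝ

/-- The algebraic data of the construction. -/
structure AFData (d : ℕ) where
  ι : Type
  [fin : Fintype ι]
  /-- the base coordinate -/
  t : E d →L[ℝ] ℝ
  /-- the vector in the base direction -/
  e : E d
  /-- complex functionals diagonalising the monodromy -/
  ell : ι → E d →L[ℝ] ℂ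
  /-- weights -/
  a : ι → ℝ
  /-- the shape operator -/
  B : E d →L[ℝ] E d
  /-- the monodromy -/
  A : E d ≃L[ℝ] E d
  c : ι → ℂ
  L : ℝ
  lat : AddSubgroup (E d)
  L_pos : 0 < L
  t_e : t e = 1
  ell_e : ∀ i, ell i e = 0
  inj : ∀ u, t u = 0 → (∀ i, ell i u = 0) → u = 0
  a_le : ∀ i, |a i| ≤ 1
  t_B : ∀ u, t (B u) = 0
  ell_B : ∀ i u, ell i (B u) = (a i : ℂ) * ell i u
  t_A : ∀ u, t (A u) = t u
  A_e : A e = e
  ell_A : ∀ i u, ell i (A u) = c i * ell i u
  norm_c : ∀ i, ‖c i‖ = Real.exp (a i * L)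
  t_lat : ∀ v ∈ lat, t v = 0
  A_lat : ∀ v, A v ∈ lat ↔ v ∈ lat
  lat_fin : ∀ R : ℝ, {v | v ∈ lat ∧ ‖v‖ ≤ R}.Finite
  lat_cob : ∃ R : ℝ, ∀ y, t y = 0 → ∃ v ∈ lat, ‖y - v‖ ≤ R

attribute [instance] AFData.fin

namespace AFData

variable {d : ℕ} (D : AFData d)

/-- The form `Re (ell_i u * conj (ell_i v))`. -/
def hForm (i : D.ι) : Form d :=
  LinearMap.mkContinuous₂ (LinearMap.mk₂ ℝ (fun u v => (D.ell i u * conj (D.ell i v)).re)
    (by intro x y z; simp [add_mul]) (by intro c x y; simp [mul_assoc])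
    (by intro x y z; simp [mul_add]) (by intro c x y; simp; ring))
    (‖D.ell i‖ * ‖D.ell i‖) (by
      intro x y
      have h1 := (D.ell i).le_opNorm x
      have h2 := (D.ell i).le_opNorm y
      have h3 : ‖(D.ell i x * conj (D.ell i y)).re‖ ≤ ‖D.ell i x‖ * ‖D.ell i y‖ := by
        refine (Complex.abs_re_le_norm _).trans ?_
        simp
      refine h3.trans ?_
      calc ‖D.ell i x‖ * ‖D.ell i y‖ ≤ (‖D.ell i‖ * ‖x‖) * (‖D.ell i‖ * ‖y‖) := by gcongr
        _ = _ := by ring)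

theorem hForm_apply (i : D.ι) (u v : E d) :
    D.hForm i u v = (D.ell i u * conj (D.ell i v)).re := rfl

/-- The forms `H τ (u, v) = ∑ i, exp (-2 a_i τ) Re (ell_i u * conj (ell_i v))`. -/
def H (τ : ℝ) : Form d := ∑ i, Real.exp (-2 * D.a i * τ) • D.hForm i

theorem H_apply (τ : ℝ) (u v : E d) :
    D.H τ u v = ∑ i, Real.exp (-2 * D.a i * τ) * (D.ell i u * conj (D.ell i v)).re := by
  simp [H, hForm_apply]

/-- The metric on `ℝ^d`: `G_y(u,v) = t(u) t(v) + s² H(t y)(u,v)`. -/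
def G (s : ℝ) (y : E d) : Form d :=
  D.t.smulRight D.t + (s ^ 2) • D.H (D.t y)

theorem G_apply (s : ℝ) (y u v : E d) :
    D.G s y u v = D.t u * D.t v + s ^ 2 * D.H (D.t y) u v := by
  simp [G]

theorem zpow_mul_apply (k m : ℤ) (y : E d) : (D.A ^ (k + m)) y = (D.A ^ k) ((D.A ^ m) y) := by
  rw [zpow_add]; rfl

theorem zpow_neg_apply (k : ℤ) (y : E d) : (D.A ^ (-k)) ((D.A ^ k) y) = y := by
  rw [← zpow_mul_apply, neg_add_cancel]; rfl

theorem zpow_apply_neg (k : ℤ) (y : E d) : (D.A ^ k) ((D.A ^ (-k)) y) = y := by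
  rw [← zpow_mul_apply, add_neg_cancel]; rfl

theorem zpow_succ_apply (k : ℤ) (y : E d) : (D.A ^ (k + 1)) y = D.A ((D.A ^ k) y) := by
  rw [add_comm, zpow_mul_apply, zpow_one]

/-- A property preserved in both directions by `A` is preserved by all powers of `A`. -/
theorem zpow_induction (P : E d → Prop) (h : ∀ y, P (D.A y) ↔ P y) (k : ℤ) (y : E d) :
    P ((D.A ^ k) y) ↔ P y := by
  induction k using Int.induction_on with
  | zero => exact Iff.rfl
  | succ n ih => rw [zpow_succ_apply, h, ih]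
  | pred n ih =>
    rw [← h, ← zpow_succ_apply]
    simpa using ih

theorem zpow_e (k : ℤ) : (D.A ^ k) D.e = D.e := by
  refine (D.zpow_induction (fun y => y = D.e) (fun y => ?_) k D.e).2 rfl
  constructor
  · intro h; exact D.A.injective (h.trans D.A_e.symm)
  · intro h; rw [h]; exact D.A_e

theorem t_zpow (k : ℤ) (y : E d) : D.t ((D.A ^ k) y) = D.t y :=
  (D.zpow_induction (fun z => D.t z = D.t y) (fun z => by rw [D.t_A]) k y).2 rfl

theorem zpow_lat (k : ℤ) (y : E d) : (D.A ^ k) y ∈ D.lat ↔ y ∈ D.lat :=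
  D.zpow_induction (fun z => z ∈ D.lat) D.A_lat k y

/-- The deck group: all maps `y ↦ A^k y + v + k L e` with `k ∈ ℤ`, `v ∈ lat`. -/
def Γ : Subgroup (Equiv.Perm (E d)) where
  carrier := {g | ∃ k : ℤ, ∃ v ∈ D.lat, ∀ y, g y = (D.A ^ k) y + v + (k * D.L : ℝ) • D.e}
  mul_mem' := by
    rintro g h ⟨k, v, hv, hg⟩ ⟨m, w, hw, hh⟩
    refine ⟨k + m, (D.A ^ k) w + v, D.lat.add_mem ((D.zpow_lat k w).2 hw) hv, fun y => ?_⟩
    rw [Equiv.Perm.mul_apply, hg, hh, zpow_mul_apply, map_add, map_add, map_smul, zpow_e]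
    push_cast
    module
  one_mem' := ⟨0, 0, D.lat.zero_mem, by intro y; simp; rfl⟩
  inv_mem' := by
    rintro g ⟨k, v, hv, hg⟩
    refine ⟨-k, -(D.A ^ (-k)) v, D.lat.neg_mem ((D.zpow_lat _ v).2 hv), fun y => ?_⟩
    rw [Equiv.Perm.inv_eq_iff_eq, hg, map_add, map_add, map_neg, map_smul, zpow_e,
      zpow_apply_neg, zpow_apply_neg]
    push_cast
    module

end AFData

/-- `p : ℝ^d → M` is the quotient map by the group `Γ` of diffeomorphisms and `M` carries the
induced charts. -/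
structure IsQuot {d : ℕ} {M : Type} [TopologicalSpace M] [ChartedSpace (E d) M]
    (Γ : Subgroup (Equiv.Perm (E d))) (p : E d → M) : Prop where
  smooth : ∀ g ∈ Γ, ContDiff ℝ ∞ g
  surj : Function.Surjective p
  covering : IsCoveringMap p
  orbit : ∀ x y, p x = p y ↔ ∃ g ∈ Γ, g x = y
  atlas : ∀ c ∈ atlas (E d) M, ∀ y : E d, c.symm y = p y

/-- Hypothesis: some eigenvalue is off the unit circle and is seen by the lattice. -/
def AFData.Hyp {d : ℕ} (D : AFData d) : Prop :=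
  ∃ i, D.a i ≠ 0 ∧ ∃ v ∈ D.lat, D.ell i v ≠ 0

/-- `Γ` has a nilpotent subgroup of finite index. -/
def VirtNil {X : Type} (Γ : Subgroup (Equiv.Perm X)) : Prop :=
  ∃ Γ' : Subgroup (Equiv.Perm X), Γ' ≤ Γ ∧ (Γ'.subgroupOf Γ).FiniteIndex ∧ Group.IsNilpotent Γ'

end Pool.Agent.Helper30.AF
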