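import Mathlib

/-!
# Almost flat manifolds: definitions

Riemannian metrics on smooth manifolds modelled on a real normed space `V` (later `ℝ^d`), their
sectional curvature (computed in the charts by the classical Christoffel formula), the length of
curves, the Riemannian diameter, infranilmanifolds, and the set of all `ε` whose supremum is the
optimal constant `ε*(d)` of the almost flat manifolds theorem.
-/

open scoped Manifold ContDiff Topology ENNReal

noncomputable section

namespace Pool.Agent.Helper30.AF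

variable {V : Type} [NormedAddCommGroup V] [NormedSpace ℝ V]

/-- Christoffel symbols of the first kind of the metric with coefficients `G`: the functional
`w ↦ 1/2 (∂_u G(v,w) + ∂_v G(u,w) - ∂_w G(u,v))` at the point `y`. -/
def chr1 (G : V → V →L[ℝ] V →L[ℝ] ℝ) (y u v : V) : V →L[ℝ] ℝ :=
  (1 / 2 : ℝ) • (fderiv ℝ (fun z => G z v) y u + fderiv ℝ (fun z => G z u) y v
    - fderiv ℝ (fun z => G z u v) y)

/-- Christoffel symbols of the second kind: the vector `christoffel G y u v` is the one with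
`G y (christoffel G y u v) w = chr1 G y u v w` for all `w`. -/
def christoffel (G : V → V →L[ℝ] V →L[ℝ] ℝ) (y u v : V) : V :=
  (G y).inverse (chr1 G y u v)

/-- The Riemann curvature tensor `R(u,v)w` of the metric with coefficients `G`, at `y`. -/
def riem (G : V → V →L[ℝ] V →L[ℝ] ℝ) (y u v w : V) : V :=
  fderiv ℝ (fun z => christoffel G z v w) y u - fderiv ℝ (fun z => christoffel G z u w) y v
    + christoffel G y u (christoffel G y v w) - christoffel G y v (christoffel G y u w)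

/-- The numerator `⟨R(u,v)v,u⟩` of the sectional curvature. -/
def sec (G : V → V →L[ℝ] V →L[ℝ] ℝ) (y u v : V) : ℝ := G y (riem G y u v v) u

/-- The denominator `|u|²|v|² - ⟨u,v⟩²` of the sectional curvature. -/
def area (G : V → V →L[ℝ] V →L[ℝ] ℝ) (y u v : V) : ℝ := G y u u * G y v v - G y u v ^ 2

section Manifold

variable {M : Type} [TopologicalSpace M] [ChartedSpace V M]

/-- The coefficients, in the chart at `p`, of a field of bilinear forms on the tangent spaces. -/
def coef (form : ∀ x : M, TangentSpace 𝓘(ℝ, V) x →L[ℝ] TangentSpace 𝓘(ℝ, V) x →L[ℝ] ℝ) (p : M)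
    (y : V) : V →L[ℝ] V →L[ℝ] ℝ :=
  ContinuousLinearMap.bilinearComp (E := V) (F := V) (E' := V) (F' := V)
    (form ((extChartAt 𝓘(ℝ, V) p).symm y))
    (mfderiv 𝓘(ℝ, V) 𝓘(ℝ, V) (extChartAt 𝓘(ℝ, V) p).symm y)
    (mfderiv 𝓘(ℝ, V) 𝓘(ℝ, V) (extChartAt 𝓘(ℝ, V) p).symm y)

variable (V M) in
/-- A smooth Riemannian metric on the manifold `M`. -/
structure RMetric where
  form : ∀ x : M, TangentSpace 𝓘(ℝ, V) x →L[ℝ] TangentSpace 𝓘(ℝ, V) x →L[ℝ] ℝ
  symm : ∀ x u v, form x u v = form x v u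
  pos : ∀ x u, u ≠ 0 → 0 < form x u u
  smooth : ∀ p : M, ContDiffOn ℝ ∞ (coef form p) (extChartAt 𝓘(ℝ, V) p).target

/-- All sectional curvatures are in `[-1, 1]`. -/
def RMetric.SecBounded (g : RMetric V M) : Prop :=
  ∀ p : M, ∀ y ∈ (extChartAt 𝓘(ℝ, V) p).target, ∀ u v : V,
    |sec (coef g.form p) y u v| ≤ area (coef g.form p) y u v

/-- The length of the curve `γ : [0,1] → M`. -/
def RMetric.length (g : RMetric V M) (γ : ℝ → M) : ℝ≥0∞ :=
  ∫⁻ t in Set.Icc (0 : ℝ) 1, ENNReal.ofReal (Real.sqrt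
    (g.form (γ t) (mfderivWithin 𝓘(ℝ, ℝ) 𝓘(ℝ, V) γ (Set.Icc 0 1) t (1 : ℝ))
      (mfderivWithin 𝓘(ℝ, ℝ) 𝓘(ℝ, V) γ (Set.Icc 0 1) t (1 : ℝ))))

/-- The Riemannian distance: the infimum of the lengths of the `C¹` curves `γ : [0,1] → M`
from `x` to `y`. -/
def RMetric.dist (g : RMetric V M) (x y : M) : ℝ≥0∞ :=
  ⨅ (γ : ℝ → M) (_ : ContMDiffOn 𝓘(ℝ, ℝ) 𝓘(ℝ, V) 1 γ (Set.Icc 0 1) ∧ γ 0 = x ∧ γ 1 = y),
    g.length γ

/-- The Riemannian diameter. -/
def RMetric.diam (g : RMetric V M) : ℝ≥0∞ := ⨆ (x : M) (y : M), g.dist x y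

variable (V M) in
/-- `M` is an infranilmanifold: there are a simply connected nilpotent Lie group `N`, a compact
group `C` of automorphisms of `N`, and a group `Λ` of affine maps `x ↦ n * c x` (`n ∈ N`, `c ∈ C`)
of `N` such that the left translations in `Λ` have finite index in `Λ`, and a smooth covering map
`π : N → M` whose fibres are exactly the orbits of `Λ`. -/
def IsInfranil : Prop :=
  ∃ (N : Type) (_ : TopologicalSpace N) (_ : ChartedSpace V N) (_ : Group N)
    (_ : LieGroup 𝓘(ℝ, V) ∞ N) (_ : T2Space N) (_ : SimplyConnectedSpace N)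
    (_ : Group.IsNilpotent N)
    (C : Subgroup (MulAut N)) (Λ : Subgroup (Equiv.Perm N)) (π : N → M),
    (∀ c ∈ C, Continuous c) ∧ IsCompact {f : C(N, N) | ∃ c ∈ C, ∀ x, f x = c x} ∧
    (∀ g ∈ Λ, ∃ n : N, ∃ c ∈ C, ∀ x, g x = n * c x) ∧
    ((MulAction.toPermHom N N).range.subgroupOf Λ).FiniteIndex ∧
    IsCoveringMap π ∧ Function.Surjective π ∧ IsLocalDiffeomorph 𝓘(ℝ, V) 𝓘(ℝ, V) ∞ π ∧
    (∀ x y, π x = π y ↔ ∃ g ∈ Λ, g x = y)

variable (V M) in
/-- The property: for every metric on `M` with sectional curvature in `[-1, 1]` and diameter `< ε`,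
`M` is an infranilmanifold. -/
def AlmostFlatProp (ε : ℝ) : Prop :=
  ∀ g : RMetric V M, g.SecBounded → g.diam < ENNReal.ofReal ε → IsInfranil V M

end Manifold

/-- The set of all `ε > 0` such that every compact connected Riemannian `d`-manifold with sectional
curvature in `[-1, 1]` and diameter `< ε` is an infranilmanifold. -/
def epsSet (d : ℕ) : Set ℝ :=
  {ε | 0 < ε ∧ ∀ (M : Type) [TopologicalSpace M] [ChartedSpace (EuclideanSpace ℝ (Fin d)) M]
    [IsManifold (𝓡 d) ∞ M] [T2Space M] [SecondCountableTopology M] [CompactSpace M]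
    [ConnectedSpace M], AlmostFlatProp (EuclideanSpace ℝ (Fin d)) M ε}

/-- The optimal constant in the almost flat manifolds theorem. -/
def epsStar (d : ℕ) : ℝ≥0∞ := ⨆ ε ∈ epsSet d, ENNReal.ofReal ε

/-- `PolyBound f L`: the integer polynomial `f` is monic with constant term `1` or `-1`, has no
multiple complex root, all its roots `z` satisfy `|log |z|| ≤ L`, and some root is off the unit
circle. -/
def PolyBound (f : Polynomial ℤ) (L : ℝ) : Prop :=
  f.Monic ∧ (f.coeff 0 = 1 ∨ f.coeff 0 = -1) ∧ (f.map (Int.castRingHom ℂ)).Separable ∧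
    (∀ z : ℂ, Polynomial.aeval z f = 0 → |Real.log ‖z‖| ≤ L) ∧
    ∃ z : ℂ, Polynomial.aeval z f = 0 ∧ ‖z‖ ≠ 1

end Pool.Agent.Helper30.AF
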