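import Pool.Agent.Helper30.AF.Core

/-! The metric on `ℝ^d`, its Christoffel symbols and its curvature. -/

open scoped Manifold ContDiff Topology ENNReal ComplexConjugate

noncomputable section

namespace Pool.Agent.Helper30.AF

/-! ### linear algebra -/

/-- Two real symmetric `2 × 2` matrices `P`, `S` with `-P ≤ S ≤ P` satisfy `|det S| ≤ det P`. -/
theorem det_le (p q r a b c : ℝ)
    (h : ∀ x y : ℝ, |a * x ^ 2 + 2 * b * x * y + c * y ^ 2| ≤
      p * x ^ 2 + 2 * q * x * y + r * y ^ 2) :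
    |a * c - b ^ 2| ≤ p * r - q ^ 2 := by
  have key : ∀ P Q R : ℝ, (∀ x y : ℝ, 0 ≤ P * x ^ 2 + 2 * Q * x * y + R * y ^ 2) →
      0 ≤ P ∧ 0 ≤ R ∧ Q ^ 2 ≤ P * R := by
    intro P Q R hP
    have h1 := hP 1 0
    have h2 := hP 0 1
    have hP0 : 0 ≤ P := by simpa using h1
    have hR0 : 0 ≤ R := by simpa using h2
    refine ⟨hP0, hR0, ?_⟩
    rcases hP0.eq_or_lt with h0 | h0
    · have hQ : Q = 0 := by
        by_contra hQ
        have h3 := hP (-(R + 1) / (2 * Q)) 1
        rw [← h0] at h3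
        have : 2 * Q * (-(R + 1) / (2 * Q)) = -(R + 1) := by field_simp
        nlinarith
      rw [hQ, ← h0]; simp
    · have h3 := hP (-Q) P
      have h4 : P * (-Q) ^ 2 + 2 * Q * (-Q) * P + R * P ^ 2 = P * (P * R - Q ^ 2) := by ring
      rw [h4] at h3
      nlinarith [nonneg_of_mul_nonneg_right h3 h0]
  obtain ⟨x1, x2, x3⟩ := key (p - a) (q - b) (r - c) (fun x y => by
    have := (abs_le.1 (h x y)).2; nlinarith)
  obtain ⟨y1, y2, y3⟩ := key (p + a) (q + b) (r + c) (fun x y => by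
    have := (abs_le.1 (h x y)).1; nlinarith)
  rw [abs_le]
  constructor
  · nlinarith
  · have h5 : (2 * ((q - b) * (q + b))) ^ 2 ≤ ((p - a) * (r + c) + (r - c) * (p + a)) ^ 2 := by
      have h6 : ((q - b) * (q + b)) ^ 2 ≤ ((p - a) * (r - c)) * ((p + a) * (r + c)) := by
        rw [mul_pow]
        exact mul_le_mul x3 y3 (sq_nonneg _) (mul_nonneg x1 x2)
      nlinarith [sq_nonneg ((p - a) * (r + c) - (r - c) * (p + a))]
    have h7 := abs_le.1 (abs_le_of_sq_le_sq h5 (by nlinarith [mul_nonneg x1 y2, mul_nonneg x2 y1]))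
    nlinarith [h7.1, h7.2]

variable {d : ℕ}

/-- A positive definite form is invertible: the inverse is characterised by the equation. -/
theorem inverse_eq {F : Form d} (hF : ∀ u, u ≠ 0 → 0 < F u u) {f : E d →L[ℝ] ℝ} {x : E d}
    (h : F x = f) : F.inverse f = x := by
  have hinj : Function.Injective (F : E d →ₗ[ℝ] (E d →L[ℝ] ℝ)) := by
    rw [← LinearMap.ker_eq_bot, LinearMap.ker_eq_bot']
    intro u hu
    by_contra hne
    have h1 := hF u hne
    have h2 : F u = 0 := hu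
    rw [h2] at h1
    simp at h1
  have hdim : Module.finrank ℝ (E d) = Module.finrank ℝ (E d →L[ℝ] ℝ) := by
    rw [← (LinearMap.toContinuousLinearMap (𝕜 := ℝ) (E := E d) (F' := ℝ)).finrank_eq,
      Module.finrank_linearMap]
    simp
  let e : E d ≃L[ℝ] (E d →L[ℝ] ℝ) :=
    (LinearMap.linearEquivOfInjective (F : E d →ₗ[ℝ] (E d →L[ℝ] ℝ)) hinj
      hdim).toContinuousLinearEquiv
  have he : (e : E d →L[ℝ] (E d →L[ℝ] ℝ)) = F := by
    ext u v
    rfl
  rw [← he, ContinuousLinearMap.inverse_equiv]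
  have : f = e x := by rw [← h, ← he]; rfl
  rw [this]
  simp

theorem contDiff_form {X : Type*} [NormedAddCommGroup X] [NormedSpace ℝ X] {G : X → Form d}
    (h : ∀ u v, ContDiff ℝ ∞ (fun y => G y u v)) : ContDiff ℝ ∞ G :=
  contDiff_clm_apply_iff.2 fun u => contDiff_clm_apply_iff.2 fun v => h u v

theorem fderiv_form_apply {G : E d → Form d} {y : E d} (hG : DifferentiableAt ℝ G y)
    (w u v : E d) : fderiv ℝ G y w u v = fderiv ℝ (fun y => G y u v) y w := by
  have h1 := hG.hasFDerivAt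
  have h2 : HasFDerivAt (fun y => G y u v) (((fderiv ℝ G y).flip u).flip v) y := by
    have h3 := h1.clm_apply (hasFDerivAt_const u y)
    have h4 := h3.clm_apply (hasFDerivAt_const v y)
    refine h4.congr_fderiv ?_
    ext w
    simp
  rw [h2.fderiv]
  rfl

theorem fderiv_form_apply' {G : E d → Form d} {y : E d} (hG : DifferentiableAt ℝ G y)
    (w u : E d) : fderiv ℝ (fun z => G z u) y w = fderiv ℝ G y w u := by
  have h3 := hG.hasFDerivAt.clm_apply (hasFDerivAt_const u y)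
  rw [h3.fderiv]
  simp

namespace AFData

variable (D : AFData d)

/-! ### the forms `H` -/

theorem H_symm (τ : ℝ) (u v : E d) : D.H τ u v = D.H τ v u := by
  rw [H_apply, H_apply]
  refine Finset.sum_congr rfl fun i _ => ?_
  simp only [Complex.mul_re, Complex.conj_re, Complex.conj_im]
  ring

theorem H_self (τ : ℝ) (u : E d) :
    D.H τ u u = ∑ i, Real.exp (-2 * D.a i * τ) * ‖D.ell i u‖ ^ 2 := by
  rw [H_apply]
  refine Finset.sum_congr rfl fun i _ => ?_
  rw [Complex.mul_conj, Complex.ofReal_re, Complex.normSq_eq_norm_sq]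

theorem H_self_nonneg (τ : ℝ) (u : E d) : 0 ≤ D.H τ u u := by
  rw [H_self]; positivity

theorem H_e (τ : ℝ) (v : E d) : D.H τ D.e v = 0 := by
  rw [H_apply]; simp [D.ell_e]

theorem H_e' (τ : ℝ) (v : E d) : D.H τ v D.e = 0 := by
  rw [H_symm, H_e]

theorem H_B_apply (τ : ℝ) (u v : E d) : D.H τ (D.B u) v =
    ∑ i, Real.exp (-2 * D.a i * τ) * (D.a i * (D.ell i u * conj (D.ell i v)).re) := by
  rw [H_apply]
  refine Finset.sum_congr rfl fun i _ => ?_
  rw [D.ell_B, mul_assoc (D.a i : ℂ), Complex.re_ofReal_mul]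

theorem H_B_symm (τ : ℝ) (u v : E d) : D.H τ (D.B u) v = D.H τ u (D.B v) := by
  rw [H_symm D τ u (D.B v), H_B_apply, H_B_apply]
  refine Finset.sum_congr rfl fun i _ => ?_
  simp only [Complex.mul_re, Complex.conj_re, Complex.conj_im]
  ring

theorem H_BB_le (τ : ℝ) (u : E d) : D.H τ (D.B u) (D.B u) ≤ D.H τ u u := by
  rw [H_self, H_self]
  refine Finset.sum_le_sum fun i _ => ?_
  rw [D.ell_B, norm_mul, mul_pow]
  have h1 : ‖(D.a i : ℂ)‖ ^ 2 ≤ 1 := by
    rw [Complex.norm_real, Real.norm_eq_abs]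
    have := D.a_le i
    have h0 := abs_nonneg (D.a i)
    nlinarith
  have h2 : ‖(D.a i : ℂ)‖ ^ 2 * ‖D.ell i u‖ ^ 2 ≤ 1 * ‖D.ell i u‖ ^ 2 := by gcongr
  rw [one_mul] at h2
  gcongr

theorem H_B_abs_le (τ : ℝ) (u : E d) : |D.H τ (D.B u) u| ≤ D.H τ u u := by
  rw [H_B_apply, H_self]
  refine (Finset.abs_sum_le_sum_abs _ _).trans (Finset.sum_le_sum fun i _ => ?_)
  rw [abs_mul, abs_of_pos (Real.exp_pos _), abs_mul, Complex.mul_conj, Complex.ofReal_re,
    Complex.normSq_eq_norm_sq, abs_of_nonneg (sq_nonneg ‖D.ell i u‖)]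
  have h2 : |D.a i| * ‖D.ell i u‖ ^ 2 ≤ 1 * ‖D.ell i u‖ ^ 2 := by
    have := D.a_le i
    gcongr
  rw [one_mul] at h2
  gcongr

theorem H_pos (τ : ℝ) (u : E d) (ht : D.t u = 0) (hu : u ≠ 0) : 0 < D.H τ u u := by
  refine lt_of_le_of_ne (D.H_self_nonneg τ u) fun h => hu (D.inj u ht ?_)
  rw [H_self] at h
  have h1 := (Finset.sum_eq_zero_iff_of_nonneg (fun i _ => by positivity)).1 h.symm
  intro i
  have h2 := h1 i (Finset.mem_univ i)
  have h3 := (Real.exp_pos (-2 * D.a i * τ)).ne'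
  simpa [h3] using h2

/-- The derivative of `H` in the base direction is `-2 H(B ·, ·)`. -/
theorem hasDerivAt_H (τ : ℝ) (u v : E d) :
    HasDerivAt (fun τ => D.H τ u v) (-2 * D.H τ (D.B u) v) τ := by
  have h0 : (fun τ => D.H τ u v) = fun τ =>
      ∑ i, Real.exp (-2 * D.a i * τ) * (D.ell i u * conj (D.ell i v)).re := by
    funext τ; exact D.H_apply τ u v
  rw [h0]
  have h : HasDerivAt (fun τ =>
      ∑ i, Real.exp (-2 * D.a i * τ) * (D.ell i u * conj (D.ell i v)).re)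
      (∑ i, (Real.exp (-2 * D.a i * τ) * (-2 * D.a i)) * (D.ell i u * conj (D.ell i v)).re) τ := by
    refine HasDerivAt.fun_sum fun i _ => HasDerivAt.mul_const ?_ _
    have := ((hasDerivAt_id τ).const_mul (-2 * D.a i)).exp
    simpa using this
  refine h.congr_deriv ?_
  rw [D.H_B_apply τ u v, Finset.mul_sum]
  refine Finset.sum_congr rfl fun i _ => ?_
  ring

theorem hasFDerivAt_H (y u v : E d) :
    HasFDerivAt (fun y => D.H (D.t y) u v) (D.t.smulRight (-2 * D.H (D.t y) (D.B u) v)) y := by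
  have := (D.hasDerivAt_H (D.t y) u v).hasFDerivAt.comp y D.t.hasFDerivAt
  refine this.congr_fderiv ?_
  ext w
  simp

theorem contDiff_G (s : ℝ) : ContDiff ℝ ∞ (D.G s) := by
  refine contDiff_form fun u v => ?_
  simp only [G_apply, H_apply]
  refine contDiff_const.add (contDiff_const.mul (ContDiff.sum fun i _ => ?_))
  refine ContDiff.mul ?_ contDiff_const
  exact Real.contDiff_exp.comp (contDiff_const.mul D.t.contDiff)

theorem G_symm (s : ℝ) (y u v : E d) : D.G s y u v = D.G s y v u := by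
  rw [G_apply, G_apply, H_symm]; ring

theorem G_pos {s : ℝ} (hs : 0 < s) (y u : E d) (hu : u ≠ 0) : 0 < D.G s y u u := by
  rw [G_apply]
  rcases eq_or_ne (D.t u) 0 with h | h
  · rw [h]
    have := D.H_pos (D.t y) u h hu
    positivity
  · have := D.H_self_nonneg (D.t y) u
    have h2 : 0 < D.t u * D.t u := mul_self_pos.2 h
    positivity

/-- The derivative of the metric. -/
theorem fderiv_G (s : ℝ) (y w u v : E d) :
    fderiv ℝ (D.G s) y w u v = D.t w * (s ^ 2 * (-2 * D.H (D.t y) (D.B u) v)) := by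
  rw [fderiv_form_apply ((D.contDiff_G s).differentiable (by simp)).differentiableAt]
  have h2 : HasFDerivAt (fun y => D.G s y u v)
      (s ^ 2 • D.t.smulRight (-2 * D.H (D.t y) (D.B u) v)) y := by
    simp only [G_apply]
    exact ((D.hasFDerivAt_H y u v).const_mul (s ^ 2)).const_add _
  rw [h2.fderiv]
  simp
  ring

/-- The Christoffel symbols of the metric. -/
theorem christoffel_G {s : ℝ} (hs : 0 < s) (y u v : E d) :
    christoffel (D.G s) y u v =
      -(D.t u • D.B v) - D.t v • D.B u + (s ^ 2 * D.H (D.t y) (D.B u) v) • D.e := by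
  refine inverse_eq (fun u hu => D.G_pos hs y u hu) ?_
  ext w
  have hd : DifferentiableAt ℝ (D.G s) y :=
    ((D.contDiff_G s).differentiable (by simp)).differentiableAt
  have h1 : chr1 (D.G s) y u v w =
      (1 / 2 : ℝ) * (fderiv ℝ (D.G s) y u v w + fderiv ℝ (D.G s) y v u w
        - fderiv ℝ (D.G s) y w u v) := by
    rw [chr1, fderiv_form_apply' hd, fderiv_form_apply' hd, fderiv_form_apply hd w u v]
    simp
  rw [h1, fderiv_G, fderiv_G, fderiv_G, G_apply]
  simp only [map_add, map_sub, map_neg, map_smul, add_apply,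
    sub_apply, neg_apply, smul_apply,
    smul_eq_mul, D.t_B, D.t_e, D.H_e]
  ring

theorem fderiv_christoffel_G {s : ℝ} (hs : 0 < s) (y u v w : E d) :
    fderiv ℝ (fun z => christoffel (D.G s) z v w) y u =
      (s ^ 2 * (D.t u * (-2 * D.H (D.t y) (D.B v) (D.B w)))) • D.e := by
  have h0 : (fun z => christoffel (D.G s) z v w) = fun z =>
      -(D.t v • D.B w) - D.t w • D.B v + (s ^ 2 * D.H (D.t z) (D.B v) w) • D.e := by
    funext z; exact D.christoffel_G hs z v w
  have h2 := D.hasFDerivAt_H y (D.B v) w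
  have h3 : HasFDerivAt (fun z =>
      -(D.t v • D.B w) - D.t w • D.B v + (s ^ 2 * D.H (D.t z) (D.B v) w) • D.e)
      ((s ^ 2 • D.t.smulRight (-2 * D.H (D.t y) (D.B (D.B v)) w)).smulRight D.e) y :=
    (((h2.const_mul (s ^ 2)).smul_const D.e).const_add _)
  rw [h0, h3.fderiv, D.H_B_symm _ (D.B v) w]
  simp [mul_left_comm]

/-- The sectional curvature identity. -/
theorem sec_G {s : ℝ} (hs : 0 < s) (y u v : E d) :
    sec (D.G s) y u v =
      -(s ^ 2 * D.H (D.t y) (D.B (D.t v • u - D.t u • v)) (D.B (D.t v • u - D.t u • v)))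
      - s ^ 4 * (D.H (D.t y) (D.B u) u * D.H (D.t y) (D.B v) v - D.H (D.t y) (D.B u) v ^ 2) := by
  have hs1 : ∀ x z, D.H (D.t y) (D.B (D.B x)) z = D.H (D.t y) (D.B x) (D.B z) := fun x z =>
    D.H_B_symm _ _ _
  have hs2 : D.H (D.t y) (D.B v) u = D.H (D.t y) (D.B u) v := by
    rw [D.H_B_symm, D.H_symm]
  have hs3 : D.H (D.t y) (D.B v) (D.B u) = D.H (D.t y) (D.B u) (D.B v) := D.H_symm _ _ _
  have hs4 : ∀ x, D.H (D.t y) (D.B D.e) x = 0 := fun x => by rw [D.H_B_symm, D.H_e]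
  unfold sec riem
  rw [D.fderiv_christoffel_G hs, D.fderiv_christoffel_G hs]
  simp only [D.christoffel_G hs]
  rw [G_apply]
  simp only [map_add, map_sub, map_neg, map_smul, add_apply, sub_apply, neg_apply, smul_apply,
    smul_eq_mul, D.t_B, D.t_e, D.H_e, D.H_e', hs4, hs1, hs2, hs3]
  ring

/-- All sectional curvatures are in `[-1, 1]`. -/
theorem sec_G_le {s : ℝ} (hs : 0 < s) (y u v : E d) :
    |sec (D.G s) y u v| ≤ area (D.G s) y u v := by
  set z := D.t v • u - D.t u • v with hz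
  have h1 : area (D.G s) y u v = s ^ 2 * D.H (D.t y) z z +
      s ^ 4 * (D.H (D.t y) u u * D.H (D.t y) v v - D.H (D.t y) u v ^ 2) := by
    rw [area, G_apply, G_apply, G_apply, hz]
    simp only [map_sub, map_smul, sub_apply, smul_apply, smul_eq_mul, D.H_symm (D.t y) v u]
    ring
  have h2 : |D.H (D.t y) (D.B u) u * D.H (D.t y) (D.B v) v - D.H (D.t y) (D.B u) v ^ 2| ≤
      D.H (D.t y) u u * D.H (D.t y) v v - D.H (D.t y) u v ^ 2 := by
    refine det_le _ _ _ _ _ _ fun x w => ?_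
    have h3 := D.H_B_abs_le (D.t y) (x • u + w • v)
    have hs2 : D.H (D.t y) (D.B v) u = D.H (D.t y) (D.B u) v := by
      rw [D.H_B_symm, D.H_symm]
    simp only [map_add, map_smul, add_apply, smul_apply, smul_eq_mul, hs2,
      D.H_symm (D.t y) v u] at h3
    have h4 : ∀ p q r : ℝ, p * x ^ 2 + 2 * q * x * w + r * w ^ 2 =
        x * (x * p + w * q) + w * (x * q + w * r) := fun p q r => by ring
    rw [h4, h4]
    exact h3
  have h3 : 0 ≤ D.H (D.t y) (D.B z) (D.B z) := D.H_self_nonneg _ _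
  have h4 := D.H_BB_le (D.t y) z
  rw [h1, D.sec_G hs, ← hz]
  rw [abs_le] at h2 ⊢
  have h5 : 0 ≤ s ^ 2 := by positivity
  have h6 : 0 ≤ s ^ 4 := by positivity
  have h7 := mul_nonneg h5 h3
  have h8 := mul_le_mul_of_nonneg_left h4 h5
  have h9 := mul_le_mul_of_nonneg_left h2.1 h6
  have h10 := mul_le_mul_of_nonneg_left h2.2 h6
  constructor <;> nlinarith

end AFData

/-! ### invariance -/

namespace AFData

theorem ell_zpow (D : AFData d) (k : ℤ) (i : D.ι) (u : E d) :
    D.ell i ((D.A ^ k) u) = D.c i ^ k * D.ell i u := by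
  have hc : D.c i ≠ 0 := by
    intro h
    have := D.norm_c i
    rw [h, norm_zero] at this
    exact (Real.exp_pos _).ne this
  induction k using Int.induction_on with
  | zero => simp; rfl
  | succ n ih => rw [zpow_succ_apply, D.ell_A, ih, zpow_add_one₀ hc]; ring
  | pred n ih =>
    have h1 := D.ell_A i ((D.A ^ (-(n : ℤ) - 1)) u)
    rw [← zpow_succ_apply, sub_add_cancel, ih] at h1
    rw [zpow_sub_one₀ hc]
    field_simp
    rw [h1]
    ring

theorem fderiv_deck (D : AFData d) {g : Equiv.Perm (E d)} {k : ℤ} {v : E d}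
    (hg : ∀ y, g y = (D.A ^ k) y + v + (k * D.L : ℝ) • D.e) (y u : E d) :
    fderiv ℝ g y u = (D.A ^ k) u := by
  have h1 : HasFDerivAt (g : E d → E d) ((D.A ^ k : E d ≃L[ℝ] E d) : E d →L[ℝ] E d) y := by
    have h2 : (g : E d → E d) = fun y => (D.A ^ k) y + v + (k * D.L : ℝ) • D.e := by
      funext y; exact hg y
    rw [h2]
    exact (((D.A ^ k : E d ≃L[ℝ] E d).hasFDerivAt).add_const v).add_const _
  rw [h1.fderiv]
  rfl

theorem G_inv (D : AFData d) (s : ℝ) {g : Equiv.Perm (E d)} (hg : g ∈ D.Γ) (y u v : E d) :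
    D.G s (g y) (fderiv ℝ g y u) (fderiv ℝ g y v) = D.G s y u v := by
  obtain ⟨k, w, hw, hk⟩ := hg
  rw [D.fderiv_deck hk, D.fderiv_deck hk, hk y, G_apply, G_apply, D.t_zpow, D.t_zpow]
  congr 2
  rw [H_apply, H_apply]
  refine Finset.sum_congr rfl fun i _ => ?_
  rw [map_add, map_add, D.t_zpow, D.t_lat w hw, map_smul, D.t_e, D.ell_zpow, D.ell_zpow]
  have h1 : (D.c i ^ k * D.ell i u * conj (D.c i ^ k * D.ell i v)).re =
      ‖D.c i ^ k‖ ^ 2 * (D.ell i u * conj (D.ell i v)).re := by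
    rw [map_mul, mul_mul_mul_comm, Complex.mul_conj, Complex.re_ofReal_mul,
      Complex.normSq_eq_norm_sq]
  rw [h1, norm_zpow, D.norm_c, ← mul_assoc]
  congr 1
  have h2 : Real.exp (D.a i * D.L) ^ k = Real.exp (k * (D.a i * D.L)) := by
    rw [← Real.rpow_intCast, ← Real.exp_mul, mul_comm]
  rw [h2, ← Real.exp_nat_mul, ← Real.exp_add]
  congr 1
  push_cast
  simp only [smul_eq_mul]
  ring

end AFData

theorem rowB {d : ℕ} (D : AFData d) (s : ℝ) (hs : 0 < s) :
    ContDiff ℝ ∞ (D.G s) ∧ (∀ y u v, D.G s y u v = D.G s y v u) ∧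
    (∀ y u, u ≠ 0 → 0 < D.G s y u u) ∧
    (∀ g ∈ D.Γ, ∀ y u v, D.G s (g y) (fderiv ℝ g y u) (fderiv ℝ g y v) = D.G s y u v) ∧
    (∀ y u v, |sec (D.G s) y u v| ≤ area (D.G s) y u v) :=
  ⟨D.contDiff_G s, D.G_symm s, D.G_pos hs, fun _ hg => D.G_inv s hg, D.sec_G_le hs⟩

end Pool.Agent.Helper30.AF
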