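import Pool.Agent.Helper30.AF.Core

/-! Row C (helper52): an invariant metric descends to the quotient. -/

open scoped Manifold ContDiff Topology ENNReal ComplexConjugate

noncomputable section

namespace Pool.Agent.Helper30.AF

namespace RowC

variable {d : ℕ} {M : Type} [TopologicalSpace M] [ChartedSpace (E d) M]
  {Γ : Subgroup (Equiv.Perm (E d))} {p : E d → M}

/-- in a chart of the quotient the projection is locally an element of the group -/
theorem trans_locally (hq : IsQuot Γ p) (c : OpenPartialHomeomorph M (E d))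
    (hc : c ∈ atlas (E d) M) (y : E d) (hy : p y ∈ c.source) :
    ∃ g ∈ Γ, ∀ᶠ z in 𝓝 y, c (p z) = g z := by
  have h1 : p (c (p y)) = p y := by
    rw [← hq.atlas c hc]; exact c.left_inv hy
  obtain ⟨g, hg, hgy⟩ := (hq.orbit y (c (p y))).1 h1.symm
  refine ⟨g, hg, ?_⟩
  have h2 : g y ∈ c.target := by rw [hgy]; exact c.map_source hy
  have h3 : ∀ᶠ z in 𝓝 y, g z ∈ c.target :=
    (hq.smooth g hg).continuous.continuousAt.eventually (c.open_target.mem_nhds h2)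
  filter_upwards [h3] with z hz
  have h4 : p z = c.symm (g z) := by
    rw [hq.atlas c hc]
    exact (hq.orbit z (g z)).2 ⟨g, hg, rfl⟩
  rw [h4, c.right_inv hz]

/-- the same in the preferred chart at the image -/
theorem chart_locally (hq : IsQuot Γ p) (y : E d) :
    ∃ g ∈ Γ, ∀ᶠ z in 𝓝 y, chartAt (E d) (p y) (p z) = g z :=
  trans_locally hq _ (chart_mem_atlas _ _) y (mem_chart_source _ _)

/-- the derivative of the projection -/
theorem hasMFDerivAt_proj (hq : IsQuot Γ p) (y : E d) :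
    ∃ g ∈ Γ, g y = chartAt (E d) (p y) (p y) ∧ HasMFDerivAt (𝓡 d) (𝓡 d) p y (fderiv ℝ g y) := by
  obtain ⟨g, hg, h⟩ := chart_locally hq y
  refine ⟨g, hg, h.self_of_nhds.symm, hq.covering.continuous.continuousAt, ?_⟩
  have h1 : HasFDerivAt g (fderiv ℝ g y) y :=
    ((hq.smooth g hg).differentiable (by simp)).differentiableAt.hasFDerivAt
  have h2 : HasFDerivAt (fun z => chartAt (E d) (p y) (p z)) (fderiv ℝ g y) y :=
    h1.congr_of_eventuallyEq h
  exact h2.hasFDerivWithinAt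

theorem contMDiff_proj (hq : IsQuot Γ p) : ContMDiff (𝓡 d) (𝓡 d) ∞ p := by
  intro y
  rw [contMDiffAt_iff]
  obtain ⟨g, hg, h⟩ := chart_locally hq y
  refine ⟨hq.covering.continuous.continuousAt, ?_⟩
  have h1 : ContDiffAt ℝ ∞ (fun z => chartAt (E d) (p y) (p z)) y :=
    (hq.smooth g hg).contDiffAt.congr_of_eventuallyEq h
  exact h1.contDiffWithinAt

/-- the form on the quotient -/
def frm (M : Type) [TopologicalSpace M] [ChartedSpace (E d) M] (G : E d → Form d) (x : M) :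
    TangentSpace (𝓡 d) x →L[ℝ] TangentSpace (𝓡 d) x →L[ℝ] ℝ :=
  show Form d from G (chartAt (E d) x x)

theorem frm_apply (hq : IsQuot Γ p) {G : E d → Form d}
    (hinv : ∀ g ∈ Γ, ∀ y u v, G (g y) (fderiv ℝ g y u) (fderiv ℝ g y v) = G y u v)
    (y : E d) {D : E d →L[ℝ] E d} (hD : HasMFDerivAt (𝓡 d) (𝓡 d) p y D) (u v : E d) :
    (show Form d from frm M G (p y)) (D u) (D v) = G y u v := by
  obtain ⟨g, hg, h1, h2⟩ := hasMFDerivAt_proj hq y
  have h3 : D = fderiv ℝ g y := hasMFDerivAt_unique hD h2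
  rw [h3]
  show G (chartAt (E d) (p y) (p y)) _ _ = _
  rw [← h1]
  exact hinv g hg y u v

theorem frm_apply' (hq : IsQuot Γ p) {G : E d → Form d}
    (hinv : ∀ g ∈ Γ, ∀ y u v, G (g y) (fderiv ℝ g y u) (fderiv ℝ g y v) = G y u v)
    (y : E d) {D : E d →L[ℝ] E d} (hD : HasMFDerivAt (𝓡 d) (𝓡 d) p y D) (u U : E d)
    (hU : U = D u) : (show Form d from frm M G (p y)) U U = G y u u := by
  rw [hU]
  exact frm_apply hq hinv y hD u u

theorem extChart_symm (hq : IsQuot Γ p) (q : M) : ((extChartAt (𝓡 d) q).symm : E d → M) = p := by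
  funext y
  exact hq.atlas (chartAt (E d) q) (chart_mem_atlas _ _) y

theorem coef_frm (hq : IsQuot Γ p) {G : E d → Form d}
    (hinv : ∀ g ∈ Γ, ∀ y u v, G (g y) (fderiv ℝ g y u) (fderiv ℝ g y v) = G y u v)
    (q : M) (y : E d) : coef (frm M G) q y = G y := by
  obtain ⟨g, hg, h1, h2⟩ := hasMFDerivAt_proj hq y
  ext u v
  have h3 : coef (frm M G) q y u v =
      (show Form d from frm M G ((extChartAt (𝓡 d) q).symm y))
        (mfderiv (𝓡 d) (𝓡 d) (extChartAt (𝓡 d) q).symm y u)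
        (mfderiv (𝓡 d) (𝓡 d) (extChartAt (𝓡 d) q).symm y v) := rfl
  rw [h3, extChart_symm hq q]
  exact frm_apply hq hinv y h2.mdifferentiableAt.hasMFDerivAt u v

end RowC

open RowC

theorem rowC {d : ℕ} {M : Type} [TopologicalSpace M] [ChartedSpace (E d) M]
    [IsManifold (𝓡 d) ∞ M] {Γ : Subgroup (Equiv.Perm (E d))} {p : E d → M} (hq : IsQuot Γ p)
    (G : E d → Form d) (hG : ContDiff ℝ ∞ G) (hsymm : ∀ y u v, G y u v = G y v u)
    (hpos : ∀ y u, u ≠ 0 → 0 < G y u u)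
    (hinv : ∀ g ∈ Γ, ∀ y u v, G (g y) (fderiv ℝ g y u) (fderiv ℝ g y v) = G y u v) :
    ∃ g : RMetric (E d) M,
      (∀ q : M, ∀ y ∈ (extChartAt (𝓡 d) q).target, coef g.form q y = G y) ∧
      (∀ x w : E d, ContMDiffOn 𝓘(ℝ, ℝ) (𝓡 d) 1 (fun τ : ℝ => p (x + τ • w)) (Set.Icc 0 1) ∧
        g.length (fun τ : ℝ => p (x + τ • w)) =
          ∫⁻ τ in Set.Icc (0 : ℝ) 1, ENNReal.ofReal (Real.sqrt (G (x + τ • w) w w))) := by
  let g : RMetric (E d) M :=
    { form := frm M G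
      symm := fun x u v => hsymm _ _ _
      pos := fun x u hu => hpos _ _ hu
      smooth := fun q => hG.contDiffOn.congr fun y _ => coef_frm hq hinv q y }
  refine ⟨g, fun q y _ => coef_frm hq hinv q y, fun x w => ?_⟩
  have hline : ContDiff ℝ ∞ (fun τ : ℝ => x + τ • w) :=
    contDiff_const.add (contDiff_id.smul contDiff_const)
  have hlm : ContMDiff 𝓘(ℝ, ℝ) (𝓡 d) ∞ (fun τ : ℝ => x + τ • w) := hline.contMDiff
  have hcm : ContMDiff 𝓘(ℝ, ℝ) (𝓡 d) ∞ (fun τ : ℝ => p (x + τ • w)) :=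
    (contMDiff_proj hq).comp hlm
  refine ⟨(hcm.of_le (by norm_cast)).contMDiffOn, ?_⟩
  unfold RMetric.length
  refine MeasureTheory.setLIntegral_congr_fun measurableSet_Icc fun τ hτ => ?_
  obtain ⟨γ, hγ, h1, h2⟩ := hasMFDerivAt_proj hq (x + τ • w)
  have hd : HasFDerivAt (fun τ : ℝ => x + τ • w) ((1 : ℝ →L[ℝ] ℝ).smulRight w) τ := by
    have := ((hasFDerivAt_id (𝕜 := ℝ) τ).smul_const w).const_add x
    exact this
  have h3 : HasMFDerivAt 𝓘(ℝ, ℝ) (𝓡 d) (fun τ : ℝ => x + τ • w)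
      τ ((1 : ℝ →L[ℝ] ℝ).smulRight w) := hd.hasMFDerivAt
  have h4 : HasMFDerivAt 𝓘(ℝ, ℝ) (𝓡 d) (fun τ : ℝ => p (x + τ • w)) τ
      ((fderiv ℝ γ (x + τ • w)).comp ((1 : ℝ →L[ℝ] ℝ).smulRight w)) :=
    HasMFDerivAt.comp τ h2 h3
  have h5 : mfderivWithin 𝓘(ℝ, ℝ) (𝓡 d) (fun τ : ℝ => p (x + τ • w)) (Set.Icc 0 1) τ =
      ((fderiv ℝ γ (x + τ • w)).comp ((1 : ℝ →L[ℝ] ℝ).smulRight w)) :=
    h4.hasMFDerivWithinAt.mfderivWithin
      ((uniqueDiffOn_Icc one_pos).uniqueMDiffOn τ hτ)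
  have h6 : g.form (p (x + τ • w))
      (mfderivWithin 𝓘(ℝ, ℝ) (𝓡 d) (fun τ : ℝ => p (x + τ • w)) (Set.Icc 0 1) τ (1 : ℝ))
      (mfderivWithin 𝓘(ℝ, ℝ) (𝓡 d) (fun τ : ℝ => p (x + τ • w)) (Set.Icc 0 1) τ (1 : ℝ)) =
      G (x + τ • w) w w := by
    rw [h5]
    have h7 : ((fderiv ℝ γ (x + τ • w)).comp ((1 : ℝ →L[ℝ] ℝ).smulRight w)) (1 : ℝ) =
        fderiv ℝ γ (x + τ • w) w := by simp
    exact frm_apply' hq hinv (x + τ • w) h2 w _ h7
  show ENNReal.ofReal (Real.sqrt _) = _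
  rw [h6]

end Pool.Agent.Helper30.AF
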