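import Pool.Agent.Helper30.AF.Core

/-! ROW D: germs (curvature bound for equal coefficients) and the diameter -/

open scoped Manifold ContDiff Topology ENNReal ComplexConjugate

noncomputable section

namespace Pool.Agent.Helper30.AF

theorem christoffel_congr {d : ℕ} {F G : E d → Form d} {U : Set (E d)} (hU : IsOpen U)
    (h : ∀ y ∈ U, F y = G y) (y : E d) (hy : y ∈ U) (u v : E d) :
    christoffel F y u v = christoffel G y u v := by
  have h1 : F =ᶠ[𝓝 y] G := Filter.eventually_of_mem (hU.mem_nhds hy) h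
  have h2 : ∀ v : E d, (fun z => F z v) =ᶠ[𝓝 y] fun z => G z v := fun v =>
    h1.mono fun z hz => by simp only [hz]
  have h3 : (fun z => F z u v) =ᶠ[𝓝 y] fun z => G z u v :=
    h1.mono fun z hz => by simp only [hz]
  rw [christoffel, christoffel, chr1, chr1, (h2 u).fderiv_eq, (h2 v).fderiv_eq, h3.fderiv_eq,
    h y hy]

theorem riem_congr {d : ℕ} {F G : E d → Form d} {U : Set (E d)} (hU : IsOpen U)
    (h : ∀ y ∈ U, F y = G y) (y : E d) (hy : y ∈ U) (u v w : E d) :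
    riem F y u v w = riem G y u v w := by
  have hc : ∀ a b : E d, (fun z => christoffel F z a b) =ᶠ[𝓝 y] (fun z => christoffel G z a b) :=
    fun a b => Filter.eventually_of_mem (hU.mem_nhds hy)
      (fun z hz => christoffel_congr hU h z hz a b)
  have hp : ∀ a b : E d, christoffel F y a b = christoffel G y a b :=
    fun a b => christoffel_congr hU h y hy a b
  rw [riem, riem, (hc v w).fderiv_eq, (hc u w).fderiv_eq, hp, hp, hp, hp]

theorem rowD1 {d : ℕ} {F G : E d → Form d} {U : Set (E d)} (hU : IsOpen U)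
    (h : ∀ y ∈ U, F y = G y) (y : E d) (hy : y ∈ U) (u v : E d) :
    sec F y u v = sec G y u v ∧ area F y u v = area G y u v := by
  constructor
  · rw [sec, sec, riem_congr hU h y hy, h y hy]
  · rw [area, area, h y hy]

namespace AFData

variable {d : ℕ} (D : AFData d)

/-- the element `y ↦ A^k y + v + k L e` of the deck group -/
def elt (k : ℤ) (v : E d) : Equiv.Perm (E d) :=
  (D.A ^ k).toEquiv.trans (Equiv.addRight (v + (k * D.L : ℝ) • D.e))

theorem elt_apply (k : ℤ) (v y : E d) : D.elt k v y = (D.A ^ k) y + v + (k * D.L : ℝ) • D.e := by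
  simp [elt, add_assoc]

theorem elt_mem (k : ℤ) {v : E d} (hv : v ∈ D.lat) : D.elt k v ∈ D.Γ :=
  ⟨k, v, hv, fun y => D.elt_apply k v y⟩

theorem t_elt (k : ℤ) {v : E d} (hv : v ∈ D.lat) (y : E d) :
    D.t (D.elt k v y) = D.t y + k * D.L := by
  rw [elt_apply, map_add, map_add, t_zpow, D.t_lat v hv, map_smul, D.t_e]
  simp

theorem H_le {τ : ℝ} (hτ : |τ| ≤ 2 * D.L) {u w : E d} {R : ℝ} (hu : ‖u‖ ≤ R)
    (hw : ∀ i, D.ell i w = D.ell i u) :
    D.H τ w w ≤ (∑ i, Real.exp (4 * D.L) * ‖D.ell i‖ ^ 2) * R ^ 2 := by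
  rw [H_apply, Finset.sum_mul]
  refine Finset.sum_le_sum fun i _ => ?_
  have e1 : (D.ell i w * conj (D.ell i w)).re = ‖D.ell i u‖ ^ 2 := by
    rw [Complex.mul_conj, Complex.ofReal_re, Complex.normSq_eq_norm_sq, hw]
  have e2 : ‖D.ell i u‖ ^ 2 ≤ ‖D.ell i‖ ^ 2 * R ^ 2 := by
    rw [← mul_pow]
    refine pow_le_pow_left₀ (norm_nonneg _) ?_ 2
    exact ((D.ell i).le_opNorm u).trans (mul_le_mul_of_nonneg_left hu (norm_nonneg _))
  have e3 : Real.exp (-2 * D.a i * τ) ≤ Real.exp (4 * D.L) := by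
    refine Real.exp_le_exp.2 ?_
    have h1 : |D.a i * τ| ≤ 1 * (2 * D.L) := by
      rw [abs_mul]
      exact mul_le_mul (D.a_le i) hτ (abs_nonneg _) (by norm_num)
    have h2 := neg_abs_le (D.a i * τ)
    linarith
  rw [e1, mul_assoc (Real.exp (4 * D.L))]
  exact mul_le_mul e3 e2 (by positivity) (Real.exp_pos _).le

end AFData

theorem rowD2 {d : ℕ} (D : AFData d) : ∃ C : ℝ, ∀ s > 0, ∀ (M : Type) [TopologicalSpace M]
    [ChartedSpace (E d) M] (p : E d → M), IsQuot D.Γ p → ∀ g : RMetric (E d) M,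
      (∀ x w : E d, ContMDiffOn 𝓘(ℝ, ℝ) (𝓡 d) 1 (fun τ : ℝ => p (x + τ • w)) (Set.Icc 0 1) ∧
        g.length (fun τ : ℝ => p (x + τ • w)) =
          ∫⁻ τ in Set.Icc (0 : ℝ) 1, ENNReal.ofReal (Real.sqrt (D.G s (x + τ • w) w w))) →
      g.diam ≤ ENNReal.ofReal (D.L / 2 + s * C) := by
  obtain ⟨R, hR⟩ := D.lat_cob
  have hL := D.L_pos
  have hR0 : 0 ≤ R := by
    obtain ⟨v, _, hv⟩ := hR 0 (map_zero _)
    exact (norm_nonneg _).trans hv
  set K : ℝ := ∑ i, Real.exp (4 * D.L) * ‖D.ell i‖ ^ 2 with hK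
  have hK0 : 0 ≤ K := Finset.sum_nonneg fun i _ => by positivity
  refine ⟨Real.sqrt K * R, fun s hs M _ _ p hq g hg => ?_⟩
  have orb : ∀ (k : ℤ) (v : E d), v ∈ D.lat → ∀ y, p (D.elt k v y) = p y := fun k v hv y =>
    ((hq.orbit y (D.elt k v y)).2 ⟨_, D.elt_mem k hv, rfl⟩).symm
  refine iSup₂_le fun x y => ?_
  -- representatives
  obtain ⟨a0, rfl⟩ := hq.surj x
  obtain ⟨b0, rfl⟩ := hq.surj y
  obtain ⟨a, ha, hta⟩ : ∃ a, p a = p a0 ∧ |D.t a| ≤ D.L := by
    refine ⟨D.elt (-⌊D.t a0 / D.L⌋) 0 a0, orb _ 0 D.lat.zero_mem a0, ?_⟩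
    rw [D.t_elt _ D.lat.zero_mem]
    have h1 := Int.floor_le (D.t a0 / D.L)
    have h2 := Int.lt_floor_add_one (D.t a0 / D.L)
    rw [le_div_iff₀ hL] at h1
    rw [div_lt_iff₀ hL] at h2
    push_cast
    rw [abs_le]
    constructor <;> nlinarith
  obtain ⟨b1, hb1, htb⟩ : ∃ b, p b = p b0 ∧ |D.t b - D.t a| ≤ D.L / 2 := by
    refine ⟨D.elt (-round ((D.t b0 - D.t a) / D.L)) 0 b0, orb _ 0 D.lat.zero_mem b0, ?_⟩
    rw [D.t_elt _ D.lat.zero_mem]
    have h1 := abs_sub_round ((D.t b0 - D.t a) / D.L)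
    have h2 : D.t b0 + ((-round ((D.t b0 - D.t a) / D.L) : ℤ) : ℝ) * D.L - D.t a =
        ((D.t b0 - D.t a) / D.L - round ((D.t b0 - D.t a) / D.L)) * D.L := by
      push_cast; field_simp; ring
    rw [h2, abs_mul, abs_of_pos hL]
    nlinarith
  set σ : ℝ := D.t b1 - D.t a with hσ
  obtain ⟨v, hv, hvR⟩ := hR (b1 - a - σ • D.e) (by
    rw [map_sub, map_sub, map_smul, D.t_e, smul_eq_mul, mul_one, hσ]; ring)
  set u : E d := b1 - a - σ • D.e - v with hu
  have hb : p (a + (σ • D.e + u)) = p b0 := by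
    have e0 : (D.A ^ (0 : ℤ)) b1 = b1 := by rw [zpow_zero]; rfl
    rw [← hb1, ← orb 0 (-v) (D.lat.neg_mem hv) b1, D.elt_apply, hu, e0]
    congr 1
    simp only [Int.cast_zero, zero_mul, zero_smul, add_zero]
    abel
  have htu : D.t u = 0 := by
    rw [hu, map_sub, map_sub, map_sub, map_smul, D.t_e, D.t_lat v hv, smul_eq_mul, mul_one, hσ]; ring
  have htw : D.t (σ • D.e + u) = σ := by
    rw [map_add, map_smul, D.t_e, htu, smul_eq_mul]; ring
  obtain ⟨hc, hl⟩ := hg a (σ • D.e + u)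
  refine (iInf₂_le (fun τ : ℝ => p (a + τ • (σ • D.e + u))) ⟨hc, by simpa using ha, by simpa using hb⟩).trans ?_
  rw [hl]
  have hbd : ∀ τ ∈ Set.Icc (0 : ℝ) 1, ENNReal.ofReal (Real.sqrt (D.G s (a + τ • (σ • D.e + u))
      (σ • D.e + u) (σ • D.e + u))) ≤ ENNReal.ofReal (D.L / 2 + s * (Real.sqrt K * R)) := by
    intro τ hτ
    refine ENNReal.ofReal_le_ofReal ?_
    have h1 : D.t (a + τ • (σ • D.e + u)) = D.t a + τ * σ := by
      rw [map_add, map_smul, htw, smul_eq_mul]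
    have h2 : |D.t a + τ * σ| ≤ 2 * D.L := by
      have h3 : |τ * σ| ≤ 1 * (D.L / 2) := by
        rw [abs_mul, abs_of_nonneg hτ.1]
        exact mul_le_mul hτ.2 htb (abs_nonneg _) (by norm_num)
      have h4 := abs_add_le (D.t a) (τ * σ)
      linarith
    have h5 := D.H_le h2 hvR (w := σ • D.e + u) (fun i => by
      rw [map_add, map_smul, D.ell_e, smul_zero, zero_add])
    rw [D.G_apply, h1, htw]
    have h6 : σ * σ + s ^ 2 * D.H (D.t a + τ * σ) (σ • D.e + u) (σ • D.e + u) ≤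
        (|σ| + s * (Real.sqrt K * R)) ^ 2 := by
      have h7 : Real.sqrt K ^ 2 = K := Real.sq_sqrt hK0
      have h8 : s ^ 2 * D.H (D.t a + τ * σ) (σ • D.e + u) (σ • D.e + u) ≤ s ^ 2 * (K * R ^ 2) :=
        mul_le_mul_of_nonneg_left h5 (by positivity)
      have h9 : 0 ≤ 2 * |σ| * (s * (Real.sqrt K * R)) := by positivity
      have h10 : (|σ| + s * (Real.sqrt K * R)) ^ 2 =
          σ * σ + 2 * |σ| * (s * (Real.sqrt K * R)) + s ^ 2 * (Real.sqrt K ^ 2 * R ^ 2) := by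
        rw [add_sq, sq_abs]; ring
      rw [h10, h7]
      linarith
    refine (Real.sqrt_le_sqrt h6).trans ?_
    rw [Real.sqrt_sq (by positivity)]
    linarith
  calc ∫⁻ τ in Set.Icc (0 : ℝ) 1, ENNReal.ofReal (Real.sqrt (D.G s (a + τ • (σ • D.e + u))
      (σ • D.e + u) (σ • D.e + u)))
      ≤ ∫⁻ τ in Set.Icc (0 : ℝ) 1, ENNReal.ofReal (D.L / 2 + s * (Real.sqrt K * R)) :=
        MeasureTheory.setLIntegral_mono' measurableSet_Icc hbd
    _ = ENNReal.ofReal (D.L / 2 + s * (Real.sqrt K * R)) := by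
        rw [MeasureTheory.setLIntegral_const, Real.volume_Icc]
        simp

end Pool.Agent.Helper30.AF
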