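import Pool.Agent.Helper30.AF.Core

/-!
# Row E: the deck group of an infranilmanifold is virtually nilpotent
-/

open scoped Manifold ContDiff Topology ENNReal ComplexConjugate

noncomputable section

namespace Pool.Agent.Helper30.AF

section Top

variable {X Y M : Type} [TopologicalSpace X] [TopologicalSpace Y] [TopologicalSpace M]

/-- a self map of a simply connected covering space which covers the identity and agrees with a
second such map at a point agrees with it everywhere -/
theorem cover_unique [SimplyConnectedSpace X] [LocallyPathConnectedSpace X] {p : X → M}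
    (hp : IsCoveringMap p) {f g : X → X} (hf : Continuous f) (hg : Continuous g)
    (hpf : ∀ x, p (f x) = p x) (hpg : ∀ x, p (g x) = p x) (x₀ : X) (h : f x₀ = g x₀) :
    ∀ x, f x = g x := by
  obtain ⟨F, -, hF⟩ := hp.existsUnique_continuousMap_lifts ⟨p, hp.continuous⟩ x₀ (f x₀) (hpf x₀)
  have h1 := hF ⟨f, hf⟩ ⟨rfl, funext hpf⟩
  have h2 := hF ⟨g, hg⟩ ⟨h.symm, funext hpg⟩
  intro x
  exact congrArg (fun k : C(X, X) => k x) (h1.trans h2.symm)

/-- two simply connected coverings of the same space are homeomorphic over it -/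
theorem exists_homeo [SimplyConnectedSpace X] [LocallyPathConnectedSpace X]
    [SimplyConnectedSpace Y] [LocallyPathConnectedSpace Y] {p : X → M} {q : Y → M}
    (hp : IsCoveringMap p) (hq : IsCoveringMap q) (x₀ : X) (y₀ : Y) (h : q y₀ = p x₀) :
    ∃ F : X ≃ₜ Y, ∀ x, q (F x) = p x := by
  obtain ⟨F, ⟨hF1, hF2⟩, -⟩ := hq.existsUnique_continuousMap_lifts ⟨p, hp.continuous⟩ x₀ y₀ h
  obtain ⟨G, ⟨hG1, hG2⟩, -⟩ :=
    hp.existsUnique_continuousMap_lifts ⟨q, hq.continuous⟩ y₀ x₀ h.symm
  have hF3 : ∀ x, q (F x) = p x := fun x => congrFun hF2 x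
  have hG3 : ∀ y, p (G y) = q y := fun y => congrFun hG2 y
  have h1 : ∀ x, G (F x) = x :=
    cover_unique hp (G.continuous.comp F.continuous) continuous_id
      (fun x => (hG3 _).trans (hF3 x)) (fun x => rfl) x₀ (by
        show G (F x₀) = x₀
        rw [hF1, hG1])
  have h2 : ∀ y, F (G y) = y :=
    cover_unique hq (F.continuous.comp G.continuous) continuous_id
      (fun x => (hF3 _).trans (hG3 x)) (fun x => rfl) y₀ (by
        show F (G y₀) = y₀
        rw [hG1, hF1])
  exact ⟨⟨⟨F, G, h1, h2⟩, F.continuous, G.continuous⟩, hF3⟩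

/-- the deck group of one covering is carried into the deck group of the other -/
theorem deck_map_le [SimplyConnectedSpace Y] [LocallyPathConnectedSpace Y] {p : X → M}
    {q : Y → M} (hq : IsCoveringMap q) (F : X ≃ₜ Y) (hF : ∀ x, q (F x) = p x)
    {Γ : Subgroup (Equiv.Perm X)} {Λ : Subgroup (Equiv.Perm Y)}
    (hΓc : ∀ g ∈ Γ, Continuous g) (hΛc : ∀ g ∈ Λ, Continuous g)
    (hΓ : ∀ x, ∀ g ∈ Γ, p (g x) = p x) (hΛ : ∀ x y, q x = q y ↔ ∃ g ∈ Λ, g x = y) (y₀ : Y) :
    Γ.map (F.toEquiv.permCongrHom : Equiv.Perm X →* Equiv.Perm Y) ≤ Λ := by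
  rintro _ ⟨g, hg, rfl⟩
  have hval : ∀ y, (F.toEquiv.permCongrHom g) y = F (g (F.symm y)) := fun y => rfl
  have hq1 : ∀ y, q ((F.toEquiv.permCongrHom g) y) = q y := by
    intro y
    rw [hval, hF, hΓ _ g hg, ← hF, F.apply_symm_apply]
  have hc1 : Continuous (F.toEquiv.permCongrHom g) := by
    have : Continuous (fun y => F (g (F.symm y))) :=
      F.continuous.comp ((hΓc g hg).comp F.symm.continuous)
    exact this
  obtain ⟨l, hl, hl0⟩ := (hΛ y₀ _).1 (hq1 y₀).symm
  have hq2 : ∀ y, q (l y) = q y := fun y => ((hΛ y _).2 ⟨l, hl, rfl⟩).symm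
  have h := cover_unique hq hc1 (hΛc l hl) hq1 hq2 y₀ hl0.symm
  have h2 : (F.toEquiv.permCongrHom g) = l := Equiv.ext h
  show (F.toEquiv.permCongrHom g) ∈ Λ
  rw [h2]
  exact hl

end Top

/-- a group carried by an injective homomorphism into a group in which the nilpotent group `T`
has finite index is virtually nilpotent -/
theorem virtNil_of_map_le {X Y : Type} {Γ : Subgroup (Equiv.Perm X)}
    {Λ T : Subgroup (Equiv.Perm Y)} (φ : Equiv.Perm X →* Equiv.Perm Y)
    (hφ : Function.Injective φ) (hle : Γ.map φ ≤ Λ) (hfin : (T.subgroupOf Λ).FiniteIndex)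
    (hnil : Group.IsNilpotent T) : VirtNil Γ := by
  refine ⟨T.comap φ ⊓ Γ, inf_le_right, ⟨?_⟩, ?_⟩
  · have h1 : (T.comap φ ⊓ Γ).relIndex Γ ≠ 0 := by
      rw [Subgroup.inf_relIndex_right, Subgroup.relIndex_comap]
      intro h
      exact hfin.index_ne_zero (Subgroup.relIndex_eq_zero_of_le_right hle h)
    exact h1
  · obtain ⟨n, hn⟩ := (Subgroup.isNilpotent_iff_lowerCentralSeries T).1 hnil
    refine (Subgroup.isNilpotent_iff_lowerCentralSeries _).2 ⟨n, ?_⟩
    have h1 : ((T.comap φ ⊓ Γ).lowerCentralSeries n).map φ ≤ ⊥ := by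
      rw [Subgroup.map_lowerCentralSeries, ← hn]
      refine Subgroup.lowerCentralSeries_mono n ?_
      exact (Subgroup.map_mono inf_le_left).trans (Subgroup.map_comap_le φ T)
    have h2 := le_bot_iff.1 h1
    rwa [Subgroup.map_eq_bot_iff_of_injective _ hφ] at h2

theorem rowE {d : ℕ} {M : Type} [TopologicalSpace M] [ChartedSpace (E d) M]
    {Γ : Subgroup (Equiv.Perm (E d))} {p : E d → M} (hq : IsQuot Γ p)
    (h : IsInfranil (E d) M) : VirtNil Γ := by
  obtain ⟨N, iT, iC, iG, iL, iT2, iS, iNil, C, Λ, π, hC, -, hΛ, hfin, hcov, hsurj, -, horb⟩ := h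
  have : LocallyPathConnectedSpace N := ChartedSpace.locallyPathConnectedSpace (E d) N
  have : ContinuousMul N := continuousMul_of_contMDiffMul (𝓡 d) ∞
  obtain ⟨y₀, hy₀⟩ := hsurj (p 0)
  obtain ⟨F, hF⟩ := exists_homeo hq.covering hcov 0 y₀ hy₀
  have hΛc : ∀ g ∈ Λ, Continuous g := by
    intro g hg
    obtain ⟨n, c, hc, hgc⟩ := hΛ g hg
    have h1 : (g : N → N) = fun x => n * c x := funext hgc
    rw [h1]
    exact continuous_const.mul (hC c hc)
  have hle := deck_map_le hcov F hF (Γ := Γ) (Λ := Λ) (fun g hg => (hq.smooth g hg).continuous)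
    hΛc (fun x g hg => ((hq.orbit x (g x)).2 ⟨g, hg, rfl⟩).symm) horb y₀
  refine virtNil_of_map_le _ F.toEquiv.permCongrHom.injective hle hfin ?_
  exact Group.nilpotent_of_surjective (MulAction.toPermHom N N).rangeRestrict
    (MulAction.toPermHom N N).rangeRestrict_surjective

end Pool.Agent.Helper30.AF
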