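import Pool.Agent.Helper30.AF.Core

/-!
# Row F: the deck group of the construction is not virtually nilpotent
-/

open scoped Manifold ContDiff Topology ENNReal ComplexConjugate commutatorElement

noncomputable section

namespace Pool.Agent.Helper30.AF

namespace AFData

variable {d : ℕ} (D : AFData d)

/-- the translation by `w` -/
def trans (w : E d) : Equiv.Perm (E d) := Equiv.addRight w

theorem trans_apply (w y : E d) : trans w y = y + w := rfl

theorem trans_pow (w : E d) (n : ℕ) : (trans w) ^ n = trans ((n : ℝ) • w) := by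
  induction n with
  | zero => ext y; simp [trans]
  | succ n ih =>
    rw [pow_succ, ih]
    ext1 y
    rw [Equiv.Perm.mul_apply, trans_apply, trans_apply, trans_apply]
    push_cast
    module

theorem trans_inv (w : E d) : (trans w)⁻¹ = trans (-w) := by
  ext1 y
  rw [Equiv.Perm.inv_eq_iff_eq, trans_apply, trans_apply]
  module

theorem trans_mem {v : E d} (hv : v ∈ D.lat) : trans v ∈ D.Γ :=
  ⟨0, v, hv, fun y => by rw [trans_apply]; simp; rfl⟩

/-- the monodromy deck transformation `y ↦ A y + L e` -/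
def mono : Equiv.Perm (E d) := D.A.toEquiv.trans (Equiv.addRight (D.L • D.e))

theorem mono_apply (y : E d) : D.mono y = D.A y + D.L • D.e := rfl

theorem mono_mem : D.mono ∈ D.Γ :=
  ⟨1, 0, D.lat.zero_mem, fun y => by rw [mono_apply, zpow_one]; simp⟩

theorem mono_pow_apply (n : ℕ) (y : E d) :
    (D.mono ^ n) y = (D.A ^ (n : ℤ)) y + ((n : ℝ) * D.L) • D.e := by
  induction n with
  | zero => simp; rfl
  | succ n ih =>
    rw [pow_succ', Equiv.Perm.mul_apply, ih, mono_apply, map_add, map_smul, D.A_e]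
    push_cast
    rw [zpow_succ_apply]
    module

theorem ell_pow (i : D.ι) (n : ℕ) (y : E d) :
    D.ell i ((D.A ^ (n : ℤ)) y) = D.c i ^ n * D.ell i y := by
  induction n with
  | zero => simp; rfl
  | succ n ih =>
    push_cast
    rw [zpow_succ_apply, D.ell_A, ih]
    ring

/-- the commutator of a translation with a power of the monodromy -/
theorem comm_trans (w : E d) (n : ℕ) :
    ⁅trans w, D.mono ^ n⁆ = trans (w - (D.A ^ (n : ℤ)) w) := by
  rw [commutatorElement_def, mul_inv_eq_iff_eq_mul, mul_inv_eq_iff_eq_mul]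
  ext1 y
  simp only [Equiv.Perm.mul_apply, trans_apply, mono_pow_apply, map_add]
  abel

/-- nonvanishing of the functional along iterated commutators -/
theorem exists_lcs {Γ' : Subgroup (Equiv.Perm (E d))} {m : ℕ} (hm : D.mono ^ m ∈ Γ') {i : D.ι}
    (hc : D.c i ^ m ≠ 1) {w : E d} (hw : trans w ∈ Γ') (hw0 : D.ell i w ≠ 0) (n : ℕ) :
    ∃ u : E d, trans u ∈ Γ'.lowerCentralSeries n ∧ D.ell i u ≠ 0 := by
  induction n with
  | zero => exact ⟨w, hw, hw0⟩
  | succ n ih =>
    obtain ⟨u, hu, hu0⟩ := ih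
    refine ⟨u - (D.A ^ (m : ℤ)) u, ?_, ?_⟩
    · rw [Subgroup.lowerCentralSeries_succ, ← D.comm_trans]
      exact Subgroup.commutator_mem_commutator hu hm
    · rw [map_sub, ell_pow]
      intro h
      apply hc
      have h1 : (1 - D.c i ^ m) * D.ell i u = 0 := by linear_combination h
      rcases mul_eq_zero.1 h1 with h2 | h2
      · exact (sub_eq_zero.1 h2).symm
      · exact absurd h2 hu0

end AFData

theorem rowF {d : ℕ} (D : AFData d) (hD : D.Hyp) : ¬ VirtNil D.Γ := by
  rintro ⟨Γ', hle, hfin, hnil⟩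
  obtain ⟨i, hai, v, hv, hv0⟩ := hD
  have hidx : Γ'.relIndex D.Γ ≠ 0 := hfin.index_ne_zero
  obtain ⟨m, hm0, -, hm⟩ := Subgroup.exists_pow_mem_of_relIndex_ne_zero hidx D.mono_mem
  obtain ⟨k, hk0, -, hk⟩ := Subgroup.exists_pow_mem_of_relIndex_ne_zero hidx (D.trans_mem hv)
  rw [AFData.trans_pow] at hk
  have hw0 : D.ell i ((k : ℝ) • v) ≠ 0 := by
    rw [map_smul]
    refine smul_ne_zero ?_ hv0
    exact_mod_cast hk0.ne'
  have hc : D.c i ^ m ≠ 1 := by
    intro h
    have h1 : ‖D.c i ^ m‖ = 1 := by rw [h, norm_one]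
    rw [norm_pow, D.norm_c, ← Real.exp_nat_mul, Real.exp_eq_one_iff] at h1
    rcases mul_eq_zero.1 h1 with h2 | h2
    · exact hm0.ne' (by exact_mod_cast h2)
    · rcases mul_eq_zero.1 h2 with h3 | h3
      · exact hai h3
      · exact D.L_pos.ne' h3
  obtain ⟨n, hn⟩ := (Subgroup.isNilpotent_iff_lowerCentralSeries Γ').1 hnil
  obtain ⟨u, hu, hu0⟩ := D.exists_lcs hm.1 hc hk.1 hw0 n
  rw [hn, Subgroup.mem_bot] at hu
  have h1 : AFData.trans u 0 = (1 : Equiv.Perm (E d)) 0 := by rw [hu]
  rw [AFData.trans_apply, zero_add, Equiv.Perm.one_apply] at h1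
  exact hu0 (by rw [h1, map_zero])

end Pool.Agent.Helper30.AF
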