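import Pool.Agent.Helper30.AF.Core

/-!
# Almost flat manifolds: data from a polynomial
-/

open scoped Manifold ContDiff Topology ENNReal ComplexConjugate
open Polynomial

noncomputable section

namespace Pool.Agent.Helper30.AF

namespace RowH

/-- the integer points of a coordinate hyperplane -/
def latt (d : ℕ) (k0 : Fin d) : AddSubgroup (E d) where
  carrier := {y | (∀ j, ∃ m : ℤ, y j = m) ∧ y k0 = 0}
  zero_mem' := ⟨fun j => ⟨0, by simp⟩, by simp⟩
  add_mem' := by
    rintro x y ⟨hx, hx0⟩ ⟨hy, hy0⟩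
    refine ⟨fun j => ?_, by simp [hx0, hy0]⟩
    obtain ⟨m, hm⟩ := hx j
    obtain ⟨m', hm'⟩ := hy j
    exact ⟨m + m', by simp [hm, hm']⟩
  neg_mem' := by
    rintro x ⟨hx, hx0⟩
    refine ⟨fun j => ?_, by simp [hx0]⟩
    obtain ⟨m, hm⟩ := hx j
    exact ⟨-m, by simp [hm]⟩

lemma mem_latt {d : ℕ} {k0 : Fin d} {y : E d} :
    y ∈ latt d k0 ↔ (∀ j, ∃ m : ℤ, y j = m) ∧ y k0 = 0 := Iff.rfl

lemma latt_fin {d : ℕ} (k0 : Fin d) (R : ℝ) : {v | v ∈ latt d k0 ∧ ‖v‖ ≤ R}.Finite := by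
  have h1 : (Set.pi Set.univ (fun _ : Fin d => Set.Icc (-⌈R⌉) ⌈R⌉)).Finite :=
    Set.Finite.pi fun _ => Set.finite_Icc _ _
  refine (h1.image (fun m : Fin d → ℤ => (WithLp.toLp 2 (fun j => (m j : ℝ)) : E d))).subset ?_
  rintro v ⟨⟨hv, _⟩, hR⟩
  choose m hm using hv
  refine ⟨m, ?_, ?_⟩
  · intro j _
    have h2 : |v j| ≤ ‖v‖ := by
      rw [← Real.norm_eq_abs]
      exact PiLp.norm_apply_le v j
    have h3 : |(m j : ℝ)| ≤ R := by
      rw [← hm j]
      exact h2.trans hR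
    have h4 := (abs_le.1 h3)
    have h5 := Int.le_ceil R
    constructor
    · have : (-(⌈R⌉ : ℝ)) ≤ (m j : ℝ) := by linarith [h4.1]
      exact_mod_cast this
    · have : ((m j : ℝ)) ≤ (⌈R⌉ : ℝ) := by linarith [h4.2]
      exact_mod_cast this
  · ext j
    simp [hm j]

lemma latt_cob {d : ℕ} (k0 : Fin d) : ∃ R : ℝ, ∀ y : E d, y k0 = 0 →
    ∃ v ∈ latt d k0, ‖y - v‖ ≤ R := by
  refine ⟨Real.sqrt d, fun y hy => ⟨WithLp.toLp 2 (fun j => (⌊y j⌋ : ℝ)), ⟨fun j => ⟨⌊y j⌋, by simp⟩,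
    by simp [hy]⟩, ?_⟩⟩
  rw [EuclideanSpace.norm_eq]
  refine Real.sqrt_le_sqrt ?_
  calc ∑ i, ‖(y - WithLp.toLp 2 (fun j => (⌊y j⌋ : ℝ))) i‖ ^ 2 ≤ ∑ _i : Fin d, (1 : ℝ) := by
        refine Finset.sum_le_sum fun i _ => ?_
        have h1 : (y - WithLp.toLp 2 (fun j => (⌊y j⌋ : ℝ))) i = Int.fract (y i) :=
          Int.self_sub_floor (y i)
        rw [h1, Real.norm_eq_abs, sq_abs]
        have h2 := Int.fract_nonneg (y i)
        have h3 := (Int.fract_lt_one (y i)).le
        nlinarith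
    _ = d := by simp

variable {d : ℕ} {V : Type} [AddCommGroup V] [Module ℝ V]

/-- the isomorphism of coordinates -/
def coo (b : Module.Basis (Fin d) ℝ V) : E d ≃ₗ[ℝ] V :=
  (EuclideanSpace.equiv (Fin d) ℝ).toLinearEquiv ≪≫ₗ b.equivFun.symm

lemma coo_single (b : Module.Basis (Fin d) ℝ V) (k : Fin d) :
    coo b (EuclideanSpace.single k 1) = b k := by
  simp [coo, Module.Basis.equivFun_symm_apply]

lemma repr_coo (b : Module.Basis (Fin d) ℝ V) (y : E d) (k : Fin d) :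
    b.repr (coo b y) k = y k := by
  have h := b.equivFun.apply_symm_apply (EuclideanSpace.equiv (Fin d) ℝ y)
  have h2 := congrFun h k
  exact h2

lemma coo_symm_apply (b : Module.Basis (Fin d) ℝ V) (v : V) (k : Fin d) :
    (coo b).symm v k = b.repr v k := by
  rw [← repr_coo b ((coo b).symm v) k, LinearEquiv.apply_symm_apply]

theorem mk_data (b : Module.Basis (Fin d) ℝ V) (k0 : Fin d)
    {ι : Type} [Fintype ι] (ell : ι → V →ₗ[ℝ] ℂ) (a : ι → ℝ) (c : ι → ℂ) (B : V →ₗ[ℝ] V)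
    (A : V ≃ₗ[ℝ] V) (L : ℝ) (hL : 0 < L)
    (ell_e : ∀ i, ell i (b k0) = 0)
    (inj : ∀ u, b.repr u k0 = 0 → (∀ i, ell i u = 0) → u = 0)
    (a_le : ∀ i, |a i| ≤ 1)
    (t_B : ∀ u, b.repr (B u) k0 = 0)
    (ell_B : ∀ i u, ell i (B u) = (a i : ℂ) * ell i u)
    (t_A : ∀ u, b.repr (A u) k0 = b.repr u k0)
    (A_e : A (b k0) = b k0)
    (ell_A : ∀ i u, ell i (A u) = c i * ell i u)
    (norm_c : ∀ i, ‖c i‖ = Real.exp (a i * L))
    (hA1 : ∀ k, A (b k) ∈ Submodule.span ℤ (Set.range b))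
    (hA2 : ∀ k, A.symm (b k) ∈ Submodule.span ℤ (Set.range b))
    (hyp : ∃ i, a i ≠ 0 ∧ ∃ k, k ≠ k0 ∧ ell i (b k) ≠ 0) :
    ∃ D : AFData d, D.L = L ∧ D.Hyp := by
  have hspan : ∀ v : V, v ∈ Submodule.span ℤ (Set.range b) ↔ ∀ j, ∃ m : ℤ, b.repr v j = m := by
    intro v
    rw [b.mem_span_iff_repr_mem ℤ]
    refine forall_congr' fun j => ?_
    constructor
    · rintro ⟨m, hm⟩
      exact ⟨m, by rw [← hm]; simp⟩
    · rintro ⟨m, hm⟩
      exact ⟨m, by rw [hm]; simp⟩
  have hlat : ∀ y : E d, y ∈ latt d k0 ↔ coo b y ∈ Submodule.span ℤ (Set.range b) ∧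
      b.repr (coo b y) k0 = 0 := by
    intro y
    rw [mem_latt, hspan, repr_coo]
    refine and_congr_left fun _ => forall_congr' fun j => ?_
    rw [repr_coo]
  have hmap : ∀ (T : V →ₗ[ℝ] V), (∀ k, T (b k) ∈ Submodule.span ℤ (Set.range b)) →
      ∀ v ∈ Submodule.span ℤ (Set.range b), T v ∈ Submodule.span ℤ (Set.range b) := by
    intro T hT v hv
    induction hv using Submodule.span_induction with
    | mem x hx =>
      obtain ⟨k, rfl⟩ := hx
      exact hT k
    | zero => simp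
    | add x y _ _ hx hy => rw [map_add]; exact Submodule.add_mem _ hx hy
    | smul m x _ hx =>
      have h1 : T (m • x) = m • T x := by
        rw [← Int.cast_smul_eq_zsmul ℝ m x, ← Int.cast_smul_eq_zsmul ℝ m (T x), map_smul]
      rw [h1]
      exact Submodule.smul_mem _ _ hx
  let φ := coo b
  refine ⟨{
    ι := ι
    fin := inferInstance
    t := LinearMap.toContinuousLinearMap ((b.coord k0).comp φ.toLinearMap)
    e := EuclideanSpace.single k0 1
    ell := fun i => LinearMap.toContinuousLinearMap ((ell i).comp φ.toLinearMap)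
    a := a
    B := LinearMap.toContinuousLinearMap (φ.symm.toLinearMap.comp (B.comp φ.toLinearMap))
    A := (φ ≪≫ₗ A ≪≫ₗ φ.symm).toContinuousLinearEquiv
    c := c
    L := L
    lat := latt d k0
    L_pos := hL
    t_e := ?_
    ell_e := ?_
    inj := ?_
    a_le := a_le
    t_B := ?_
    ell_B := ?_
    t_A := ?_
    A_e := ?_
    ell_A := ?_
    norm_c := norm_c
    t_lat := ?_
    A_lat := ?_
    lat_fin := latt_fin k0
    lat_cob := ?_ }, rfl, ?_⟩
  · have : φ (EuclideanSpace.single k0 1) = b k0 := coo_single b k0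
    simp [this]
  · intro i
    have : φ (EuclideanSpace.single k0 1) = b k0 := coo_single b k0
    simpa [this] using ell_e i
  · intro u hu hi
    have h1 := inj (φ u) (by simpa using hu) (fun i => by simpa using hi i)
    exact φ.map_eq_zero_iff.1 h1
  · intro u
    simpa using t_B (φ u)
  · intro i u
    simpa using ell_B i (φ u)
  · intro u
    simpa using t_A (φ u)
  · have : φ (EuclideanSpace.single k0 1) = b k0 := coo_single b k0
    have h2 : φ.symm (A (φ (EuclideanSpace.single k0 1))) = EuclideanSpace.single k0 1 := by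
      rw [this, A_e, ← this, LinearEquiv.symm_apply_apply]
    simpa using h2
  · intro i u
    simpa using ell_A i (φ u)
  · intro v hv
    have := ((hlat v).1 hv).2
    simpa using this
  · intro v
    have key : φ.symm (A (φ v)) ∈ latt d k0 ↔ v ∈ latt d k0 := by
      rw [hlat, hlat]
      have e1 : coo b (φ.symm (A (φ v))) = A (φ v) := LinearEquiv.apply_symm_apply _ _
      rw [e1, t_A]
      refine and_congr_left fun _ => ?_
      constructor
      · intro h
        have h2 := hmap A.symm.toLinearMap hA2 _ h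
        simpa using h2
      · intro h
        exact hmap A.toLinearMap hA1 _ h
    simpa using key
  · obtain ⟨R, hR⟩ := latt_cob k0
    refine ⟨R, fun y hy => hR y ?_⟩
    have : b.repr (coo b y) k0 = 0 := by simpa using hy
    rwa [repr_coo] at this
  · obtain ⟨i, hi, k, hk, hk2⟩ := hyp
    refine ⟨i, hi, EuclideanSpace.single k 1, ?_, ?_⟩
    · refine ⟨fun j => ?_, ?_⟩
      · by_cases hj : j = k
        · exact ⟨1, by simp [hj]⟩
        · exact ⟨0, by simp [hj]⟩
      · simp [hk.symm]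
    · have : φ (EuclideanSpace.single k 1) = b k := coo_single b k
      simpa [this] using hk2

section Poly

variable (f : ℤ[X])

/-- the polynomial with real coefficients -/
abbrev gR : ℝ[X] := f.map (Int.castRingHom ℝ)

/-- the complex roots -/
def Z : Finset ℂ := (f.map (Int.castRingHom ℂ)).roots.toFinset

variable {f}

lemma mem_Z (hf : f.Monic) {z : ℂ} : z ∈ Z f ↔ aeval z f = 0 := by
  rw [Z, Multiset.mem_toFinset, mem_roots (hf.map _).ne_zero, IsRoot.def, eval_map, aeval_def]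
  rfl

lemma card_Z (hf : f.Monic) (hsq : (f.map (Int.castRingHom ℂ)).Separable) :
    (Z f).card = f.natDegree := by
  rw [Z, Multiset.toFinset_card_of_nodup (nodup_roots hsq)]
  have h := IsAlgClosed.splits (f.map (Int.castRingHom ℂ))
  rw [← h.natDegree_eq_card_roots, hf.natDegree_map]

lemma eval₂_gR (hf : f.Monic) {z : ℂ} (hz : z ∈ Z f) :
    (gR f).eval₂ (Algebra.ofId ℝ ℂ) z = 0 := by
  have h1 := (mem_Z hf).1 hz
  rw [aeval_def] at h1
  have e : ((Algebra.ofId ℝ ℂ : ℝ →ₐ[ℝ] ℂ) : ℝ →+* ℂ).comp (Int.castRingHom ℝ) =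
      algebraMap ℤ ℂ := RingHom.ext_int _ _
  rw [gR, eval₂_map, e]
  exact h1

/-- the evaluation at a root -/
def ev (hf : f.Monic) (z : {z // z ∈ Z f}) : AdjoinRoot (gR f) →ₐ[ℝ] ℂ :=
  AdjoinRoot.liftAlgHom (gR f) (Algebra.ofId ℝ ℂ) z.1 (eval₂_gR hf z.2)

lemma ev_root (hf : f.Monic) (z : {z // z ∈ Z f}) : ev hf z (AdjoinRoot.root (gR f)) = z.1 :=
  AdjoinRoot.liftAlgHom_root ..

lemma ev_mk (hf : f.Monic) (z : {z // z ∈ Z f}) (p : ℝ[X]) :
    ev hf z (AdjoinRoot.mk (gR f) p) = aeval z.1 p := by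
  rw [ev, AdjoinRoot.liftAlgHom_mk, aeval_def]
  rfl

lemma ev_inj (hf : f.Monic) (hsq : (f.map (Int.castRingHom ℂ)).Separable)
    (h0 : 0 < f.natDegree) (u : AdjoinRoot (gR f)) (hu : ∀ z, ev hf z u = 0) : u = 0 := by
  have hg : (gR f).Monic := hf.map _
  obtain ⟨p, rfl⟩ := AdjoinRoot.mk_surjective u
  have h1 : AdjoinRoot.mk (gR f) p = AdjoinRoot.mk (gR f) (p %ₘ gR f) := by
    rw [AdjoinRoot.mk_eq_mk]
    rw [← modByMonic_add_div p (gR f)]
    exact ⟨p /ₘ gR f, by rw [modByMonic_add_div p (gR f)]; nth_rewrite 1 [← modByMonic_add_div p (gR f)]; ring⟩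
  rw [h1] at hu ⊢
  set r := p %ₘ gR f with hr
  have h2 : r.natDegree < f.natDegree := by
    have h3 : (gR f).natDegree = f.natDegree := hf.natDegree_map _
    rw [← h3]
    refine natDegree_modByMonic_lt p hg ?_
    intro h4
    rw [h4, natDegree_one] at h3
    omega
  have h3 : r.map (algebraMap ℝ ℂ) = 0 := by
    refine eq_zero_of_natDegree_lt_card_of_eval_eq_zero' _ (Z f) (fun z hz => ?_) ?_
    · have h4 := hu ⟨z, hz⟩
      rw [ev_mk, aeval_def] at h4
      rw [eval_map]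
      exact h4
    · rw [card_Z hf hsq]
      exact (natDegree_map_le).trans_lt h2
  have h4 : r = 0 := by
    rwa [Polynomial.map_eq_zero] at h3
  rw [h4, map_zero]

lemma conj_mem (hf : f.Monic) {z : ℂ} (hz : z ∈ Z f) : conj z ∈ Z f := by
  rw [mem_Z hf] at hz ⊢
  have h := congrArg (starRingEnd ℂ) hz
  rw [map_zero, aeval_def, Polynomial.hom_eval₂] at h
  rw [aeval_def]
  convert h using 2
  exact RingHom.ext_int _ _

lemma exists_real (hf : f.Monic) (h : ℂ → ℝ) (hh : ∀ z, h (conj z) = h z) :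
    ∃ q : ℝ[X], ∀ z ∈ Z f, aeval z q = (h z : ℂ) := by
  set qc := Lagrange.interpolate (Z f) id (fun z => (h z : ℂ)) with hqc
  have hev : ∀ z ∈ Z f, qc.eval z = (h z : ℂ) := by
    intro z hz
    have := Lagrange.eval_interpolate_at_node (s := Z f) (v := id) (fun z => (h z : ℂ))
      (Set.injOn_id _) hz
    exact this
  refine ⟨∑ k ∈ Finset.range (qc.natDegree + 1), C (qc.coeff k).re * X ^ k, fun z hz => ?_⟩
  have h1 : aeval z (∑ k ∈ Finset.range (qc.natDegree + 1), C (qc.coeff k).re * X ^ k) =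
      ∑ k ∈ Finset.range (qc.natDegree + 1), (((qc.coeff k).re : ℝ) : ℂ) * z ^ k := by
    rw [map_sum]
    refine Finset.sum_congr rfl fun k _ => ?_
    simp
  have h2 : conj (qc.eval (conj z)) =
      ∑ k ∈ Finset.range (qc.natDegree + 1), conj (qc.coeff k) * z ^ k := by
    rw [eval_eq_sum_range, map_sum]
    refine Finset.sum_congr rfl fun k _ => ?_
    simp
  have h3 : qc.eval z = ∑ k ∈ Finset.range (qc.natDegree + 1), qc.coeff k * z ^ k :=
    eval_eq_sum_range z
  have h4 : 2 * ∑ k ∈ Finset.range (qc.natDegree + 1), (((qc.coeff k).re : ℝ) : ℂ) * z ^ k =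
      qc.eval z + conj (qc.eval (conj z)) := by
    rw [h2, h3, ← Finset.sum_add_distrib, Finset.mul_sum]
    refine Finset.sum_congr rfl fun k _ => ?_
    rw [← add_mul, Complex.add_conj]
    push_cast
    ring
  rw [hev z hz, hev _ (conj_mem hf hz), hh, Complex.conj_ofReal] at h4
  rw [h1]
  linear_combination h4 / 2

/-- the basis of powers -/
def pb (hf : f.Monic) : PowerBasis ℝ (AdjoinRoot (gR f)) := AdjoinRoot.powerBasis' (hf.map _)

lemma pb_dim (hf : f.Monic) : (pb hf).dim = f.natDegree := by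
  rw [pb, AdjoinRoot.powerBasis'_dim, hf.natDegree_map]

lemma pb_basis (hf : f.Monic) (i : Fin (pb hf).dim) :
    (pb hf).basis i = AdjoinRoot.root (gR f) ^ (i : ℕ) := by
  rw [(pb hf).basis_eq_pow]
  rfl

lemma aeval_root (f : ℤ[X]) : aeval (AdjoinRoot.root (gR f)) f = 0 := by
  have h := AdjoinRoot.eval₂_root (gR f)
  rw [eval₂_map] at h
  rw [aeval_def]
  have e : (AdjoinRoot.of (gR f)).comp (Int.castRingHom ℝ) =
      algebraMap ℤ (AdjoinRoot (gR f)) := RingHom.ext_int _ _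
  rw [← e]
  exact h

lemma int_mem (hf : f.Monic) (h0 : 0 < f.natDegree) (p : ℤ[X]) :
    aeval (AdjoinRoot.root (gR f)) p ∈ Submodule.span ℤ (Set.range (pb hf).basis) := by
  rw [← aeval_modByMonic_eq_self_of_root (aeval_root f) (p := p)]
  have h2 : (p %ₘ f).natDegree < f.natDegree := natDegree_modByMonic_lt p hf (by
    rintro rfl
    simp at h0)
  rw [aeval_eq_sum_range' h2]
  refine Submodule.sum_mem _ fun k hk => Submodule.smul_mem _ _ (Submodule.subset_span ?_)
  refine ⟨⟨k, ?_⟩, pb_basis hf _⟩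
  rw [pb_dim]
  exact Finset.mem_range.1 hk

lemma exists_inv (h0 : f.coeff 0 = 1 ∨ f.coeff 0 = -1) :
    ∃ η : ℤ[X], AdjoinRoot.root (gR f) * aeval (AdjoinRoot.root (gR f)) η = 1 := by
  have h1 : aeval (AdjoinRoot.root (gR f)) (divX f) * AdjoinRoot.root (gR f) +
      ((f.coeff 0 : ℤ) : AdjoinRoot (gR f)) = 0 := by
    have h2 := congrArg (aeval (AdjoinRoot.root (gR f))) (divX_mul_X_add f)
    rw [aeval_root] at h2
    simpa using h2
  rcases h0 with h0 | h0
  · refine ⟨-divX f, ?_⟩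
    rw [h0] at h1
    rw [map_neg]
    push_cast at h1
    linear_combination -h1
  · refine ⟨divX f, ?_⟩
    rw [h0] at h1
    push_cast at h1
    linear_combination h1

/-- the space of the construction -/
abbrev VV (f : ℤ[X]) (m : ℕ) : Type := ℝ × (AdjoinRoot (gR f) × (Fin m → ℝ))

/-- the basis -/
def bV (hf : f.Monic) (m : ℕ) :
    Module.Basis (Unit ⊕ (Fin (pb hf).dim ⊕ Fin m)) ℝ (VV f m) :=
  (Module.Basis.singleton Unit ℝ).prod ((pb hf).basis.prod (Pi.basisFun ℝ (Fin m)))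

lemma bV_base (hf : f.Monic) (m : ℕ) : bV hf m (Sum.inl ()) = ((1 : ℝ), ((0 : AdjoinRoot (gR f)),
    (0 : Fin m → ℝ))) := by
  simp [bV, Module.Basis.prod_apply, Prod.ext_iff]

lemma bV_pow (hf : f.Monic) (m : ℕ) (i : Fin (pb hf).dim) : bV hf m (Sum.inr (Sum.inl i)) =
    ((0 : ℝ), (AdjoinRoot.root (gR f) ^ (i : ℕ), (0 : Fin m → ℝ))) := by
  rw [← pb_basis hf i]
  simp [bV, Module.Basis.prod_apply]

lemma bV_flat (hf : f.Monic) (m : ℕ) (j : Fin m) : bV hf m (Sum.inr (Sum.inr j)) =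
    ((0 : ℝ), ((0 : AdjoinRoot (gR f)), (Pi.single j 1 : Fin m → ℝ))) := by
  simp [bV, Module.Basis.prod_apply]

lemma bV_repr (hf : f.Monic) (m : ℕ) (u : VV f m) : (bV hf m).repr u (Sum.inl ()) = u.1 := by
  simp [bV]

/-- integral elements give integral vectors -/
lemma emb_mem (hf : f.Monic) (h0 : 0 < f.natDegree) (m : ℕ) (p : ℤ[X]) :
    (((0 : ℝ), (aeval (AdjoinRoot.root (gR f)) p, (0 : Fin m → ℝ))) : VV f m) ∈
      Submodule.span ℤ (Set.range (bV hf m)) := by
  have h1 := int_mem hf h0 p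
  generalize aeval (AdjoinRoot.root (gR f)) p = x at h1
  induction h1 using Submodule.span_induction with
  | mem x hx =>
    obtain ⟨k, rfl⟩ := hx
    refine Submodule.subset_span ⟨Sum.inr (Sum.inl k), ?_⟩
    rw [bV_pow, pb_basis]
  | zero => exact Submodule.zero_mem _
  | add x y _ _ hx hy =>
    have := Submodule.add_mem _ hx hy
    simpa using this
  | smul k x _ hx =>
    have := Submodule.smul_mem _ k hx
    simpa using this

/-- the functionals -/
def el (hf : f.Monic) (m : ℕ) : ({z // z ∈ Z f} ⊕ Fin m) → VV f m →ₗ[ℝ] ℂ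
  | Sum.inl z => (ev hf z).toLinearMap ∘ₗ (LinearMap.fst ℝ (AdjoinRoot (gR f)) (Fin m → ℝ)) ∘ₗ
      (LinearMap.snd ℝ ℝ (AdjoinRoot (gR f) × (Fin m → ℝ)))
  | Sum.inr j => Complex.ofRealCLM.toLinearMap ∘ₗ (LinearMap.proj j : (Fin m → ℝ) →ₗ[ℝ] ℝ) ∘ₗ
      (LinearMap.snd ℝ (AdjoinRoot (gR f)) (Fin m → ℝ)) ∘ₗ
      (LinearMap.snd ℝ ℝ (AdjoinRoot (gR f) × (Fin m → ℝ)))

lemma el_inl (hf : f.Monic) (m : ℕ) (z : {z // z ∈ Z f}) (u : VV f m) :
    el hf m (Sum.inl z) u = ev hf z u.2.1 := rfl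

lemma el_inr (hf : f.Monic) (m : ℕ) (j : Fin m) (u : VV f m) :
    el hf m (Sum.inr j) u = ((u.2.2 j : ℝ) : ℂ) := rfl

/-- multiplication by an invertible element -/
def mulE {R : Type} [CommRing R] [Algebra ℝ R] (x y : R) (h : x * y = 1) : R ≃ₗ[ℝ] R where
  toFun u := x * u
  map_add' u v := mul_add x u v
  map_smul' c u := by simp
  invFun u := y * u
  left_inv u := by
    change y * (x * u) = u
    linear_combination u * h
  right_inv u := by
    change x * (y * u) = u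
    linear_combination u * h

end Poly

end RowH

open RowH in
/-- ROW H -/
theorem rowH (f : ℤ[X]) (hf : f.Monic) (hf0 : f.coeff 0 = 1 ∨ f.coeff 0 = -1)
    (hsq : (f.map (Int.castRingHom ℂ)).Separable) (L : ℝ) (hL : 0 < L)
    (hroots : ∀ z : ℂ, aeval z f = 0 → |Real.log ‖z‖| ≤ L)
    (hne : ∃ z : ℂ, aeval z f = 0 ∧ ‖z‖ ≠ 1) (d : ℕ) (hd : f.natDegree + 1 ≤ d) :
    ∃ D : AFData d, D.L = L ∧ D.Hyp := by
  obtain ⟨z0, hz0, hz01⟩ := hne
  have h0 : 0 < f.natDegree := by
    rw [Nat.pos_iff_ne_zero]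
    intro h
    have h1 : f = 1 := hf.natDegree_eq_zero.1 h
    rw [h1] at hz0
    simp at hz0
  have hzne : ∀ z : ℂ, aeval z f = 0 → z ≠ 0 := by
    rintro z hz rfl
    have h6 : ((f.coeff 0 : ℤ) : ℂ) = 0 := by
      simpa [Polynomial.aeval_def, coeff_zero_eq_eval_zero, Polynomial.eval₂_at_zero] using hz
    rcases hf0 with h2 | h2 <;> simp [h2] at h6
  obtain ⟨η, hη⟩ := exists_inv hf0
  obtain ⟨q, hq⟩ := exists_real hf (fun z => Real.log ‖z‖ / L) (by simp)
  obtain ⟨m, rfl⟩ : ∃ m, d = 1 + (f.natDegree + m) := ⟨d - 1 - f.natDegree, by omega⟩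
  have hcard : Fintype.card (Unit ⊕ (Fin (pb hf).dim ⊕ Fin m)) = 1 + (f.natDegree + m) := by
    simp [pb_dim]
  let σ := Fintype.equivFinOfCardEq hcard
  have hb : ∀ k, (bV hf m).reindex σ k = bV hf m (σ.symm k) := fun k =>
    Module.Basis.reindex_apply ..
  have hr : ∀ u, ((bV hf m).reindex σ).repr u (σ (Sum.inl ())) = u.1 := fun u => by
    rw [Module.Basis.repr_reindex_apply, Equiv.symm_apply_apply, bV_repr]
  have hrange : Set.range ((bV hf m).reindex σ) = Set.range (bV hf m) := Module.Basis.range_reindex ..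
  refine mk_data ((bV hf m).reindex σ) (σ (Sum.inl ())) (el hf m)
    (Sum.elim (fun z => Real.log ‖z.1‖ / L) (fun _ => 0)) (Sum.elim (fun z => z.1) (fun _ => 1))
    (LinearMap.prodMap 0 (LinearMap.prodMap (LinearMap.mulLeft ℝ (AdjoinRoot.mk (gR f) q)) 0))
    ((LinearEquiv.refl ℝ ℝ).prodCongr ((mulE _ _ hη).prodCongr (LinearEquiv.refl ℝ (Fin m → ℝ))))
    L hL ?_ ?_ ?_ ?_ ?_ ?_ ?_ ?_ ?_ ?_ ?_ ?_
  · intro i
    rw [hb, Equiv.symm_apply_apply, bV_base]
    rcases i with z | j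
    · rw [el_inl]; simp
    · rw [el_inr]; simp
  · intro u hu hi
    rw [hr] at hu
    obtain ⟨x, u, w⟩ := u
    have h1 : u = 0 := ev_inj hf hsq h0 u fun z => hi (Sum.inl z)
    have h2 : w = 0 := by
      ext j
      have h3 := hi (Sum.inr j)
      rw [el_inr] at h3
      simpa using h3
    simp only at hu
    rw [hu, h1, h2]
    rfl
  · rintro (z | j)
    · rw [Sum.elim_inl, abs_div, abs_of_pos hL, div_le_one hL]
      exact hroots z.1 ((mem_Z hf).1 z.2)
    · simp
  · intro u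
    rw [hr]
    simp
  · rintro (z | j) u
    · rw [el_inl, el_inl, Sum.elim_inl]
      have h1 : ev hf z (AdjoinRoot.mk (gR f) q * u.2.1) =
          ((Real.log ‖z.1‖ / L : ℝ) : ℂ) * ev hf z u.2.1 := by
        rw [map_mul, ev_mk, hq z.1 z.2]
      exact h1
    · rw [el_inr, Sum.elim_inr]
      simp
  · intro u
    rw [hr, hr]
    rfl
  · rw [hb, Equiv.symm_apply_apply, bV_base]
    simp [mulE]
  · rintro (z | j) u
    · rw [el_inl, el_inl, Sum.elim_inl]
      have h1 : ev hf z (AdjoinRoot.root (gR f) * u.2.1) = z.1 * ev hf z u.2.1 := by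
        rw [map_mul, ev_root]
      exact h1
    · rw [el_inr, el_inr, Sum.elim_inr, one_mul]
      rfl
  · rintro (z | j)
    · rw [Sum.elim_inl, Sum.elim_inl, div_mul_cancel₀ _ hL.ne', Real.exp_log]
      exact norm_pos_iff.2 (hzne z.1 ((mem_Z hf).1 z.2))
    · simp
  · intro k
    rw [hb, hrange]
    generalize σ.symm k = k'
    rcases k' with _ | i | j
    · refine Submodule.subset_span ⟨Sum.inl (), ?_⟩
      rw [bV_base]
      simp [mulE]
    · rw [bV_pow]
      have h1 := emb_mem hf h0 m (X ^ ((i : ℕ) + 1))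
      convert h1 using 1
      simp [mulE, pow_succ']
    · refine Submodule.subset_span ⟨Sum.inr (Sum.inr j), ?_⟩
      rw [bV_flat]
      simp [mulE]
  · intro k
    rw [hb, hrange]
    generalize σ.symm k = k'
    rcases k' with _ | i | j
    · refine Submodule.subset_span ⟨Sum.inl (), ?_⟩
      rw [bV_base, LinearEquiv.eq_symm_apply]
      simp [mulE]
    · rw [bV_pow]
      have h1 := emb_mem hf h0 m (η * X ^ (i : ℕ))
      convert h1 using 1
      rw [LinearEquiv.symm_apply_eq]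
      have h2 : AdjoinRoot.root (gR f) * (aeval (AdjoinRoot.root (gR f)) η *
          AdjoinRoot.root (gR f) ^ (i : ℕ)) = AdjoinRoot.root (gR f) ^ (i : ℕ) := by
        rw [← mul_assoc, hη, one_mul]
      simp [mulE, h2]
    · refine Submodule.subset_span ⟨Sum.inr (Sum.inr j), ?_⟩
      rw [bV_flat, LinearEquiv.eq_symm_apply]
      simp [mulE]
  · refine ⟨Sum.inl ⟨z0, (mem_Z hf).2 hz0⟩, ?_, σ (Sum.inr (Sum.inl ⟨0, by rw [pb_dim]; exact h0⟩)),
      ?_, ?_⟩
    · rw [Sum.elim_inl]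
      exact div_ne_zero (Real.log_ne_zero_of_pos_of_ne_one (norm_pos_iff.2 (hzne z0 hz0)) hz01) hL.ne'
    · intro h
      have := σ.injective h
      exact absurd this (by simp)
    · rw [hb, Equiv.symm_apply_apply, bV_pow, el_inl]
      simp

end Pool.Agent.Helper30.AF
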