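import Pool.Agent.Helper30.AF.Defs

/-! ROW K: numerics -/

open Polynomial

noncomputable section

namespace Pool.Agent.Helper30.AF

theorem separable_of {f : ℤ[X]} (h : ∀ z : ℂ, aeval z f = 0 → aeval z (derivative f) ≠ 0) :
    (f.map (Int.castRingHom ℂ)).Separable := by
  rw [separable_def, Polynomial.isCoprime_iff_aeval_ne_zero_of_isAlgClosed ℂ ℂ]
  intro z
  by_cases hz : aeval z f = 0
  · right
    have := h z hz
    rwa [derivative_map, aeval_def, eval₂_map, Algebra.algebraMap_self, RingHom.id_comp,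
      ← algebraMap_int_eq, ← aeval_def]
  · left
    rwa [aeval_def, eval₂_map, Algebra.algebraMap_self, RingHom.id_comp,
      ← algebraMap_int_eq, ← aeval_def]

theorem quad_root {a y : ℝ} (h : a ^ 2 < 4 * y) {z : ℂ} (hz : z ^ 2 - a * z + y = 0) : ‖z‖ ^ 2 = y := by
  have h1 := congrArg Complex.re hz
  have h2 := congrArg Complex.im hz
  simp [pow_two] at h1 h2
  rw [← Complex.normSq_eq_norm_sq, Complex.normSq_apply]
  have h3 : z.im = 0 ∨ z.re = a / 2 := by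
    have : z.im * (2 * z.re - a) = 0 := by linarith
    rcases mul_eq_zero.1 this with h | h
    · exact Or.inl h
    · right; linarith
  rcases h3 with h3 | h3
  · exfalso
    rw [h3] at h1
    nlinarith [sq_nonneg (z.re - a / 2)]
  · rw [h3] at h1 ⊢
    nlinarith

theorem log_of_sq {y : ℝ} {z : ℂ} (h : ‖z‖ ^ 2 = y ∨ ‖z‖ ^ 2 = y⁻¹) :
    |Real.log ‖z‖| = |Real.log y| / 2 := by
  have h2 : |2 * Real.log ‖z‖| = |Real.log y| := by
    have e : Real.log (‖z‖ ^ 2) = 2 * Real.log ‖z‖ := by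
      rw [Real.log_pow]; push_cast; ring
    rcases h with h | h
    · rw [← e, h]
    · rw [← e, h, Real.log_inv, abs_neg]
  rw [abs_mul, abs_of_pos (by norm_num : (0:ℝ) < 2)] at h2
  linarith

/-! ### degree two -/

theorem rowK2 : PolyBound (X ^ 2 - X - 1) (Real.log Real.goldenRatio) ∧
    (X ^ 2 - X - 1 : ℤ[X]).natDegree = 2 := by
  have hd : (X ^ 2 - X - 1 : ℤ[X]).natDegree = 2 := by compute_degree!
  have hm : (X ^ 2 - X - 1 : ℤ[X]).Monic := by monicity!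
  have hroot : ∀ z : ℂ, aeval z (X ^ 2 - X - 1 : ℤ[X]) = 0 → z ^ 2 - z - 1 = 0 := by
    intro z hz; simpa using hz
  refine ⟨⟨hm, Or.inr (by simp), separable_of fun z hz h => ?_, fun z hz => ?_, ?_⟩, hd⟩
  · have h1 := hroot z hz
    have h2 : (aeval z) (2 : ℤ[X]) = (2 : ℂ) := by exact_mod_cast map_ofNat (aeval z) 2
    simp [h2] at h
    have h3 : z = 1 / 2 := by linear_combination h / 2
    rw [h3] at h1
    norm_num at h1
  · have h1 := hroot z hz
    have hf : z ^ 2 - z - 1 = (z - Real.goldenRatio) * (z - ((1 - Real.goldenRatio : ℝ) : ℂ)) := by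
      have c1 : (Real.goldenRatio : ℂ) ^ 2 = Real.goldenRatio + 1 := by exact_mod_cast Real.goldenRatio_sq
      rw [Complex.ofReal_sub, Complex.ofReal_one]
      generalize (Real.goldenRatio : ℂ) = g at c1 ⊢
      linear_combination c1
    have hg := Real.one_lt_goldenRatio
    have hl : 0 < Real.log Real.goldenRatio := Real.log_pos hg
    rw [hf] at h1
    rcases mul_eq_zero.1 h1 with h | h
    · rw [sub_eq_zero.1 h, Complex.norm_real, Real.norm_of_nonneg (by linarith), abs_of_pos hl]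
    · have e : |1 - Real.goldenRatio| = Real.goldenRatio⁻¹ := by
        rw [abs_of_neg (by linarith)]
        have := Real.goldenRatio_sq
        refine eq_inv_of_mul_eq_one_left ?_
        generalize Real.goldenRatio = g at this ⊢
        linear_combination this
      rw [sub_eq_zero.1 h, Complex.norm_real, Real.norm_eq_abs, e, Real.log_inv, abs_neg, abs_of_pos hl]
  · refine ⟨(Real.goldenRatio : ℂ), ?_, ?_⟩
    · have c1 : (Real.goldenRatio : ℂ) ^ 2 = Real.goldenRatio + 1 := by exact_mod_cast Real.goldenRatio_sq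
      simp only [map_sub, map_pow, aeval_X, map_one]
      rw [c1]; ring
    · rw [Complex.norm_real, Real.norm_of_nonneg (by linarith [Real.one_lt_goldenRatio])]
      exact Real.one_lt_goldenRatio.ne'

/-! ### degree three -/

theorem rho_lt {y : ℝ} (h1 : 1 < y) (h : y ^ 3 = y + 1) : y < 1.32472 := by
  by_contra hlt
  push Not at hlt
  nlinarith [mul_self_nonneg (y - 1.32472), mul_nonneg (sub_nonneg.2 hlt) (mul_self_nonneg y)]

theorem rowK3 (ρ : ℝ) (hρ : 1 < ρ) (h : ρ ^ 3 = ρ + 1) : PolyBound (X ^ 3 - X - 1) (Real.log ρ) ∧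
    (X ^ 3 - X - 1 : ℤ[X]).natDegree = 3 := by
  have hd : (X ^ 3 - X - 1 : ℤ[X]).natDegree = 3 := by compute_degree!
  have hm : (X ^ 3 - X - 1 : ℤ[X]).Monic := by monicity!
  have hroot : ∀ z : ℂ, aeval z (X ^ 3 - X - 1 : ℤ[X]) = 0 → z ^ 3 - z - 1 = 0 := by
    intro z hz; simpa using hz
  have hpos : 0 < ρ := by linarith
  have hl : 0 < Real.log ρ := Real.log_pos hρ
  refine ⟨⟨hm, Or.inr (by simp), separable_of fun z hz h' => ?_, fun z hz => ?_, ?_⟩, hd⟩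
  · have h1 := hroot z hz
    have h2 : (aeval z) (3 : ℤ[X]) = (3 : ℂ) := by exact_mod_cast map_ofNat (aeval z) 3
    simp [h2] at h'
    have h3 : z = -3 / 2 := by linear_combination z * h' / 2 - 3 * h1 / 2
    rw [h3] at h1
    norm_num at h1
  · have h1 := hroot z hz
    have hy3 : ρ ^ 2 - 1 = ρ⁻¹ := by field_simp; linarith
    have hf : z ^ 3 - z - 1 = (z - ρ) * (z ^ 2 - ((-ρ : ℝ) : ℂ) * z + ((ρ⁻¹ : ℝ) : ℂ)) := by
      have c1 : (ρ : ℂ) ^ 3 = ρ + 1 := by exact_mod_cast h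
      have c2 : (ρ : ℂ) ^ 2 - 1 = ((ρ⁻¹ : ℝ) : ℂ) := by exact_mod_cast hy3
      rw [← c2]
      push_cast
      linear_combination c1
    rw [hf] at h1
    rcases mul_eq_zero.1 h1 with h' | h'
    · rw [sub_eq_zero.1 h', Complex.norm_real, Real.norm_of_nonneg hpos.le, abs_of_pos hl]
    · have h5 : (0.75 : ℝ) < ρ⁻¹ := by
        rw [lt_inv_comm₀ (by norm_num) hpos]
        have := rho_lt hρ h
        norm_num; linarith
      have h6 : ‖z‖ ^ 2 = ρ⁻¹ := quad_root (by nlinarith [rho_lt hρ h]) h'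
      rw [log_of_sq (Or.inr h6), abs_of_pos hl]
      linarith
  · refine ⟨(ρ : ℂ), ?_, ?_⟩
    · have c1 : (ρ : ℂ) ^ 3 = ρ + 1 := by exact_mod_cast h
      simp only [map_sub, map_pow, aeval_X, map_one]
      rw [c1]; ring
    · rw [Complex.norm_real, Real.norm_of_nonneg hpos.le]
      exact hρ.ne'

/-! ### degree `4 m` -/

theorem sq_lt_three {b : ℝ} (hb : 1 < b) (h : (b ^ 2 + 1) * (b ^ 2 - 1) ^ 2 = b ^ 3) : b ^ 2 < 3 := by
  by_contra hlt
  push Not at hlt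
  have h1 : b ^ 3 ≤ (b ^ 2) ^ 2 := by nlinarith [pow_pos (by linarith : (0:ℝ) < b) 3]
  nlinarith [mul_nonneg (sub_nonneg.2 hlt) (sq_nonneg (b ^ 2)), mul_nonneg (sub_nonneg.2 hlt) (sub_nonneg.2 hlt)]

theorem factor {y : ℝ} (hy : 1 < y) (h : (y ^ 2 + 1) * (y ^ 2 - 1) ^ 2 = y ^ 3) (z : ℂ) :
    z ^ 4 - z ^ 3 + 1 = (z ^ 2 - ((y ^ 2 / (y ^ 2 - 1) : ℝ) : ℂ) * z + (y : ℂ)) *
      (z ^ 2 - ((-1 / (y ^ 2 - 1) : ℝ) : ℂ) * z + ((y⁻¹ : ℝ) : ℂ)) := by
  have h0 : y ≠ 0 := by positivity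
  have h1 : y ^ 2 - 1 ≠ 0 := by nlinarith
  have e1 : y ^ 2 / (y ^ 2 - 1) + -1 / (y ^ 2 - 1) = 1 := by field_simp; ring
  have e2 : y + y⁻¹ + y ^ 2 / (y ^ 2 - 1) * (-1 / (y ^ 2 - 1)) = 0 := by
    field_simp
    linear_combination h
  have e3 : y ^ 2 / (y ^ 2 - 1) * y⁻¹ + y * (-1 / (y ^ 2 - 1)) = 0 := by field_simp; ring
  have e4 : y * y⁻¹ = 1 := mul_inv_cancel₀ h0
  have c1 : (((y ^ 2 / (y ^ 2 - 1) : ℝ) : ℂ)) + ((-1 / (y ^ 2 - 1) : ℝ) : ℂ) = 1 := by exact_mod_cast e1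
  have c2 : (y : ℂ) + ((y⁻¹ : ℝ) : ℂ) + ((y ^ 2 / (y ^ 2 - 1) : ℝ) : ℂ) * ((-1 / (y ^ 2 - 1) : ℝ) : ℂ) = 0 := by
    exact_mod_cast e2
  have c3 : ((y ^ 2 / (y ^ 2 - 1) : ℝ) : ℂ) * ((y⁻¹ : ℝ) : ℂ) + (y : ℂ) * ((-1 / (y ^ 2 - 1) : ℝ) : ℂ) = 0 := by
    exact_mod_cast e3
  have c4 : (y : ℂ) * ((y⁻¹ : ℝ) : ℂ) = 1 := by exact_mod_cast e4
  linear_combination z ^ 3 * c1 - z ^ 2 * c2 + z * c3 - c4

theorem disc_a {b : ℝ} (hb : 1 < b) (h : (b ^ 2 + 1) * (b ^ 2 - 1) ^ 2 = b ^ 3) :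
    (b ^ 2 / (b ^ 2 - 1)) ^ 2 < 4 * b := by
  have h3 : 0 < b ^ 2 - 1 := by nlinarith
  have hs := sq_lt_three hb h
  have hb0 : 0 < b := by linarith
  have e : (b ^ 2 / (b ^ 2 - 1)) ^ 2 = b * (b ^ 2 + 1) := by
    rw [div_pow, div_eq_iff (by positivity)]
    linear_combination -b * h
  rw [e]
  nlinarith

theorem disc_b {b : ℝ} (hb : 1 < b) (h : (b ^ 2 + 1) * (b ^ 2 - 1) ^ 2 = b ^ 3) :
    (-1 / (b ^ 2 - 1)) ^ 2 < 4 * b⁻¹ := by
  have h3 : 0 < b ^ 2 - 1 := by nlinarith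
  have hb0 : 0 < b := by linarith
  have e : (-1 / (b ^ 2 - 1)) ^ 2 = (b ^ 2 + 1) / b ^ 3 := by
    rw [div_pow, div_eq_div_iff (by positivity) (by positivity)]
    linear_combination -h
  rw [e, div_lt_iff₀ (by positivity)]
  have : 4 * b⁻¹ * b ^ 3 = 4 * b ^ 2 := by field_simp
  rw [this]
  nlinarith

theorem four {b : ℝ} (hb : 1 < b) (h : (b ^ 2 + 1) * (b ^ 2 - 1) ^ 2 = b ^ 3) (z : ℂ)
    (hz : z ^ 4 - z ^ 3 + 1 = 0) : ‖z‖ ^ 2 = b ∨ ‖z‖ ^ 2 = b⁻¹ := by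
  rw [factor hb h z] at hz
  rcases mul_eq_zero.1 hz with h' | h'
  · exact Or.inl (quad_root (disc_a hb h) h')
  · exact Or.inr (quad_root (disc_b hb h) h')

theorem four' {b : ℝ} (hb : 1 < b) (h : (b ^ 2 + 1) * (b ^ 2 - 1) ^ 2 = b ^ 3) (w : ℂ)
    (hw : w ^ 4 - w + 1 = 0) : |Real.log ‖w‖| = Real.log b / 2 := by
  have hw0 : w ≠ 0 := by rintro rfl; simp at hw
  have h1 : (w⁻¹) ^ 4 - (w⁻¹) ^ 3 + 1 = 0 := by
    field_simp
    linear_combination hw
  have h2 := log_of_sq (four hb h _ h1)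
  rw [norm_inv, Real.log_inv, abs_neg, abs_of_pos (Real.log_pos hb)] at h2
  exact h2

theorem rowK4 (b : ℝ) (hb : 1 < b) (h : (b ^ 2 + 1) * (b ^ 2 - 1) ^ 2 = b ^ 3) (m : ℕ)
    (hm : 1 ≤ m) : PolyBound (X ^ (4 * m) - X ^ m + 1) (Real.log b / (2 * m)) ∧
    (X ^ (4 * m) - X ^ m + 1 : ℤ[X]).natDegree = 4 * m := by
  have hlt : (-X ^ m + 1 : ℤ[X]).degree < ((4 * m : ℕ) : WithBot ℕ) := by
    refine lt_of_le_of_lt (degree_add_le _ _) (max_lt ?_ ?_)
    · rw [degree_neg, degree_X_pow]; exact_mod_cast (by omega)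
    · rw [degree_one]; exact_mod_cast (by omega)
  have hrw : (X ^ (4 * m) - X ^ m + 1 : ℤ[X]) = X ^ (4 * m) + (-X ^ m + 1) := by ring
  have hmon : (X ^ (4 * m) - X ^ m + 1 : ℤ[X]).Monic := by
    rw [hrw]; exact monic_X_pow_add hlt
  have hd : (X ^ (4 * m) - X ^ m + 1 : ℤ[X]).natDegree = 4 * m := by
    rw [hrw, natDegree_add_eq_left_of_degree_lt (by rwa [degree_X_pow]), natDegree_X_pow]
  have hroot : ∀ z : ℂ, aeval z (X ^ (4 * m) - X ^ m + 1 : ℤ[X]) = 0 →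
      (z ^ m) ^ 4 - z ^ m + 1 = 0 := by
    intro z hz
    rw [← pow_mul, mul_comm m 4]
    simpa using hz
  have hm' : (0 : ℝ) < m := by exact_mod_cast (by omega : 0 < m)
  have hlog : ∀ z : ℂ, aeval z (X ^ (4 * m) - X ^ m + 1 : ℤ[X]) = 0 →
      |Real.log ‖z‖| = Real.log b / (2 * m) := by
    intro z hz
    have h2 := four' hb h _ (hroot z hz)
    rw [norm_pow, Real.log_pow, abs_mul, abs_of_pos hm'] at h2
    field_simp
    linarith
  refine ⟨⟨hmon, Or.inl ?_, separable_of fun z hz h' => ?_, fun z hz => (hlog z hz).le, ?_⟩, hd⟩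
  · rw [coeff_add, coeff_sub, coeff_X_pow, coeff_X_pow, coeff_one_zero, if_neg (by omega),
      if_neg (by omega)]
    norm_num
  · have h1 := hroot z hz
    have h2' : (aeval z) (4 : ℤ[X]) = (4 : ℂ) := by exact_mod_cast map_ofNat (aeval z) 4
    have h2 : (4 * m : ℂ) * z ^ (4 * m - 1) - m * z ^ (m - 1) = 0 := by
      simpa [derivative_X_pow, h2'] using h'
    have e1 : z ^ (4 * m - 1) * z = (z ^ m) ^ 4 := by
      rw [← pow_succ, ← pow_mul]; congr 1; omega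
    have e2 : z ^ (m - 1) * z = z ^ m := by
      rw [← pow_succ]; congr 1; omega
    have hmc : (m : ℂ) ≠ 0 := by exact_mod_cast (by omega : m ≠ 0)
    have h3 : 4 * (z ^ m) ^ 4 - z ^ m = 0 := by
      have : (m : ℂ) * (4 * (z ^ m) ^ 4 - z ^ m) = 0 := by
        rw [← e1, ← e2]
        linear_combination z * h2
      exact (mul_eq_zero.1 this).resolve_left hmc
    have h4 : z ^ m = 4 / 3 := by linear_combination h3 / 3 - 4 * h1 / 3
    rw [h4] at h1
    norm_num at h1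
  · obtain ⟨z, hz⟩ := Complex.exists_root (f := (X ^ (4 * m) - X ^ m + 1 : ℤ[X]).map (Int.castRingHom ℂ))
      (by
        rw [degree_map_eq_of_injective (RingHom.injective_int _), degree_eq_natDegree hmon.ne_zero, hd]
        exact_mod_cast (by omega : 0 < 4 * m))
    have hz' : aeval z (X ^ (4 * m) - X ^ m + 1 : ℤ[X]) = 0 := by
      rw [IsRoot.def, eval_map, ← algebraMap_int_eq, ← aeval_def] at hz
      exact hz
    refine ⟨z, hz', fun h1 => ?_⟩
    have h2 := hlog z hz'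
    rw [h1, Real.log_one, abs_zero] at h2
    have := Real.log_pos hb
    have h3 : 0 < Real.log b / (2 * m) := by positivity
    linarith

/-! ### numbers -/

theorem log_lt_of_exp_sum {x t : ℝ} (hx : 0 < x) (ht : 0 ≤ t) (n : ℕ)
    (h : x < ∑ i ∈ Finset.range n, t ^ i / (i.factorial : ℝ)) : Real.log x < t := by
  rw [Real.log_lt_iff_lt_exp hx]
  exact h.trans_le (Real.sum_le_exp_of_nonneg ht n)

theorem rowKnum : (∀ ρ : ℝ, 1 < ρ → ρ ^ 3 = ρ + 1 → Real.log ρ < 0.2813) ∧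
    (∀ b : ℝ, 1 < b → (b ^ 2 + 1) * (b ^ 2 - 1) ^ 2 = b ^ 3 → Real.log b < 0.3374) ∧
    Real.log Real.goldenRatio < 0.4813 ∧ (∃ ρ : ℝ, 1 < ρ ∧ ρ ^ 3 = ρ + 1) ∧
    (∃ b : ℝ, 1 < b ∧ (b ^ 2 + 1) * (b ^ 2 - 1) ^ 2 = b ^ 3) := by
  refine ⟨fun ρ hρ h => ?_, fun b hb h => ?_, ?_, ?_, ?_⟩
  · refine log_lt_of_exp_sum (by linarith) (by norm_num) 8 ((rho_lt hρ h).trans ?_)
    simp only [Finset.sum_range_succ, Finset.sum_range_zero, Nat.factorial]
    norm_num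
  · have hlt : b < 1.40128 := by
      by_contra hlt
      push Not at hlt
      obtain ⟨u, hu, rfl⟩ : ∃ u : ℝ, 0 ≤ u ∧ b = 1.40128 + u := ⟨b - 1.40128, by linarith, by ring⟩
      have e : ((1.40128 + u) ^ 2 + 1) * ((1.40128 + u) ^ 2 - 1) ^ 2 - (1.40128 + u) ^ 3 > 0 := by
        ring_nf
        positivity
      linarith
    refine log_lt_of_exp_sum (by linarith) (by norm_num) 8 (hlt.trans ?_)
    simp only [Finset.sum_range_succ, Finset.sum_range_zero, Nat.factorial]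
    norm_num
  · have hg : Real.goldenRatio < 1.61804 := by
      have h := Real.goldenRatio_sq
      have h1 := Real.one_lt_goldenRatio
      nlinarith
    refine log_lt_of_exp_sum Real.goldenRatio_pos (by norm_num) 9 (hg.trans ?_)
    simp only [Finset.sum_range_succ, Finset.sum_range_zero, Nat.factorial]
    norm_num
  · have hc : ContinuousOn (fun t : ℝ => t ^ 3 - t - 1) (Set.Icc 1.3247 1.32472) := by
      fun_prop
    have h := intermediate_value_Ioo (a := (1.3247 : ℝ)) (b := 1.32472) (by norm_num) hc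
    have h0 : (0 : ℝ) ∈ Set.Ioo ((fun t : ℝ => t ^ 3 - t - 1) 1.3247)
        ((fun t : ℝ => t ^ 3 - t - 1) 1.32472) := by
      constructor <;> norm_num
    obtain ⟨y, hy, hy0⟩ := h h0
    simp only at hy0
    exact ⟨y, by linarith [hy.1], by linarith⟩
  · have hc : ContinuousOn (fun t : ℝ => (t ^ 2 + 1) * (t ^ 2 - 1) ^ 2 - t ^ 3) (Set.Icc 1.4 1.41) := by
      fun_prop
    have h := intermediate_value_Ioo (a := (1.4 : ℝ)) (b := 1.41) (by norm_num) hc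
    have h0 : (0 : ℝ) ∈ Set.Ioo ((fun t : ℝ => (t ^ 2 + 1) * (t ^ 2 - 1) ^ 2 - t ^ 3) 1.4)
        ((fun t : ℝ => (t ^ 2 + 1) * (t ^ 2 - 1) ^ 2 - t ^ 3) 1.41) := by
      constructor <;> norm_num
    obtain ⟨y, hy, hy0⟩ := h h0
    simp only at hy0
    exact ⟨y, by linarith [hy.1], by linarith⟩

end Pool.Agent.Helper30.AF
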