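import Pool.Agent.Helper30.AF.RowA
import Pool.Agent.Helper30.AF.RowB
import Pool.Agent.Helper30.AF.RowC
import Pool.Agent.Helper30.AF.RowD
import Pool.Agent.Helper30.AF.RowE
import Pool.Agent.Helper30.AF.RowF
import Pool.Agent.Helper30.AF.RowH
import Pool.Agent.Helper30.AF.RowK

/-! Assembly: the upper bound for the optimal constant of the almost flat manifolds theorem. -/

open scoped Manifold ContDiff Topology ENNReal ComplexConjugate
open Polynomial

noncomputable section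

namespace Pool.Agent.Helper30.AF

/-- The torus bundle of `D`, with metrics collapsing the fibres, bounds `ε*(d)` by `L / 2`. -/
theorem epsSet_le {d : ℕ} (D : AFData d) (hD : D.Hyp) : ∀ ε ∈ epsSet d, ε ≤ D.L / 2 := by
  intro ε hε
  by_contra hlt
  push Not at hlt
  obtain ⟨hpos, hε⟩ := hε
  obtain ⟨M, iT, iC, p, hq, iM, iT2, iSC, iCo, iCn⟩ := rowA D
  obtain ⟨C, hC⟩ := rowD2 D
  obtain ⟨s, hs, hsC⟩ : ∃ s : ℝ, 0 < s ∧ D.L / 2 + s * C < ε := by
    refine ⟨(ε - D.L / 2) / (2 * (|C| + 1)), by positivity, ?_⟩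
    have h1 : (ε - D.L / 2) / (2 * (|C| + 1)) * C ≤ (ε - D.L / 2) / (2 * (|C| + 1)) * |C| :=
      mul_le_mul_of_nonneg_left (le_abs_self C) (by positivity)
    have h2 : (ε - D.L / 2) / (2 * (|C| + 1)) * |C| < ε - D.L / 2 := by
      rw [div_mul_eq_mul_div, div_lt_iff₀ (by positivity)]
      nlinarith [abs_nonneg C]
    linarith
  obtain ⟨h1, h2, h3, h4, h5⟩ := rowB D s hs
  obtain ⟨g, hg1, hg2⟩ := rowC hq (D.G s) h1 h2 h3 h4
  refine rowF D hD (rowE hq (hε M g ?_ ?_))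
  · intro q y hy u v
    obtain ⟨h6, h7⟩ := rowD1 (isOpen_extChartAt_target q) (hg1 q) y hy u v
    rw [h6, h7]
    exact h5 y u v
  · exact (hC s hs M p hq g hg2).trans_lt ((ENNReal.ofReal_lt_ofReal_iff hpos).2 hsC)

theorem epsStar_le {d : ℕ} (f : ℤ[X]) (L : ℝ) (hf : PolyBound f L) (hd : f.natDegree < d) :
    epsStar d ≤ ENNReal.ofReal (L / 2) := by
  obtain ⟨h1, h2, h3, h4, h5⟩ := hf
  have hL : 0 < L := by
    obtain ⟨z, hz, hz1⟩ := h5
    refine lt_of_lt_of_le ?_ (h4 z hz)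
    have hz0 : z ≠ 0 := by
      rintro rfl
      have h6 : ((f.coeff 0 : ℤ) : ℂ) = 0 := by
        simpa [Polynomial.aeval_def, coeff_zero_eq_eval_zero, Polynomial.eval₂_at_zero] using hz
      rcases h2 with h2 | h2 <;> simp [h2] at h6
    exact abs_pos.2 (Real.log_ne_zero_of_pos_of_ne_one (norm_pos_iff.2 hz0) hz1)
  obtain ⟨D, hDL, hD⟩ := rowH f h1 h2 h3 L hL h4 h5 d hd
  have h := epsSet_le D hD
  rw [hDL] at h
  exact iSup₂_le fun ε hε => ENNReal.ofReal_le_ofReal (h ε hε)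

end Pool.Agent.Helper30.AF
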