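import Pool.Agent.Helper30.AF.Core

/-! Row A (helper96): the quotient manifold. -/

open scoped Manifold ContDiff Topology ENNReal ComplexConjugate

noncomputable section

namespace Pool.Agent.Helper30.AF

namespace AFData

variable {d : ℕ} (D : AFData d)

theorem smul_def (g : D.Γ) (y : E d) : g • y = (g : Equiv.Perm (E d)) y := rfl

theorem mem_Γ_iff (g : Equiv.Perm (E d)) : g ∈ D.Γ ↔
    ∃ k : ℤ, ∃ v ∈ D.lat, ∀ y, g y = (D.A ^ k) y + v + (k * D.L : ℝ) • D.e := Iff.rfl

theorem contDiff_of_mem {g : Equiv.Perm (E d)} (hg : g ∈ D.Γ) : ContDiff ℝ ∞ g := by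
  obtain ⟨k, v, -, h⟩ := (D.mem_Γ_iff g).1 hg
  have : (g : E d → E d) = fun y => (D.A ^ k) y + v + (k * D.L : ℝ) • D.e := funext h
  rw [this]
  exact (((D.A ^ k).contDiff).add contDiff_const).add contDiff_const

theorem t_apply_of (k : ℤ) (v : E d) (hv : v ∈ D.lat) (y : E d) :
    D.t ((D.A ^ k) y + v + (k * D.L : ℝ) • D.e) = D.t y + k * D.L := by
  rw [map_add, map_add, map_smul, D.t_zpow, D.t_lat v hv, D.t_e, add_zero, smul_eq_mul, mul_one]

instance : ContinuousConstSMul D.Γ (E d) where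
  continuous_const_smul g := (D.contDiff_of_mem g.2).continuous

/-- The map with parameters `k`, `v`. -/
def gm (k : ℤ) (v : E d) (hv : v ∈ D.lat) : D.Γ :=
  ⟨{ toFun := fun y => (D.A ^ k) y + v + (k * D.L : ℝ) • D.e
     invFun := fun y => (D.A ^ (-k)) (y - v - (k * D.L : ℝ) • D.e)
     left_inv := by
      intro y
      have : (D.A ^ k) y + v + (k * D.L : ℝ) • D.e - v - (k * D.L : ℝ) • D.e = (D.A ^ k) y := by
        abel
      change (D.A ^ (-k)) ((D.A ^ k) y + v + (k * D.L : ℝ) • D.e - v - (k * D.L : ℝ) • D.e) = y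
      rw [this, D.zpow_neg_apply]
     right_inv := by
      intro y
      change (D.A ^ k) ((D.A ^ (-k)) (y - v - (k * D.L : ℝ) • D.e)) + v + (k * D.L : ℝ) • D.e = y
      rw [D.zpow_apply_neg]
      abel },
    ⟨k, v, hv, fun _ => rfl⟩⟩

theorem gm_smul (k : ℤ) (v : E d) (hv : v ∈ D.lat) (y : E d) :
    D.gm k v hv • y = (D.A ^ k) y + v + (k * D.L : ℝ) • D.e := rfl

theorem exists_gm (g : D.Γ) : ∃ k v, ∃ hv : v ∈ D.lat, g = D.gm k v hv := by
  obtain ⟨g, hg⟩ := g
  obtain ⟨k, v, hv, h⟩ := (D.mem_Γ_iff g).1 hg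
  refine ⟨k, v, hv, ?_⟩
  apply Subtype.ext
  apply Equiv.ext
  intro y
  exact h y

instance : ProperlyDiscontinuousSMul D.Γ (E d) where
  finite_disjoint_inter_image := by
    intro K K' hK hK'
    obtain ⟨R, hR⟩ := hK.isBounded.exists_norm_le
    obtain ⟨R', hR'⟩ := hK'.isBounded.exists_norm_le
    -- bound for k
    set N : ℕ := ⌈(‖D.t‖ * R + ‖D.t‖ * R') / D.L⌉₊ with hN
    have hkfin : (Set.Icc (-(N : ℤ)) N).Finite := Set.finite_Icc _ _
    -- finite set of pairs
    let S : Set (ℤ × E d) := ⋃ k ∈ Set.Icc (-(N : ℤ)) N,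
      (fun v => (k, v)) '' {v | v ∈ D.lat ∧ ‖v‖ ≤ R' + ‖((D.A ^ k : E d ≃L[ℝ] E d) : E d →L[ℝ] E d)‖ * R + ‖(k * D.L : ℝ) • D.e‖}
    have hS : S.Finite := hkfin.biUnion fun k _ => (D.lat_fin _).image _
    classical
    let f : ℤ × E d → D.Γ := fun q => if h : q.2 ∈ D.lat then D.gm q.1 q.2 h else 1
    refine (hS.image f).subset ?_
    rintro g ⟨z, ⟨y, hy, rfl⟩, hz⟩
    obtain ⟨k, v, hv, rfl⟩ := D.exists_gm g
    refine ⟨(k, v), ?_, by simp [f, hv]⟩
    have hgy : D.gm k v hv • y = (D.A ^ k) y + v + (k * D.L : ℝ) • D.e := D.gm_smul k v hv y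
    have hz' : ‖(D.A ^ k) y + v + (k * D.L : ℝ) • D.e‖ ≤ R' := by
      rw [← hgy]; exact hR' _ hz
    have hyR : ‖y‖ ≤ R := hR y hy
    have ht : |k * D.L| ≤ ‖D.t‖ * R + ‖D.t‖ * R' := by
      have h1 := D.t_apply_of k v hv y
      have h2 : (k * D.L : ℝ) = D.t ((D.A ^ k) y + v + (k * D.L : ℝ) • D.e) - D.t y := by
        rw [h1]; ring
      rw [h2]
      have h3 : |D.t ((D.A ^ k) y + v + (k * D.L : ℝ) • D.e)| ≤ ‖D.t‖ * R' := by
        have := D.t.le_opNorm ((D.A ^ k) y + v + (k * D.L : ℝ) • D.e)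
        rw [Real.norm_eq_abs] at this
        exact this.trans (by gcongr)
      have h4 : |D.t y| ≤ ‖D.t‖ * R := by
        have := D.t.le_opNorm y
        rw [Real.norm_eq_abs] at this
        exact this.trans (by gcongr)
      calc |D.t ((D.A ^ k) y + v + (k * D.L : ℝ) • D.e) - D.t y| ≤ _ := abs_sub _ _
        _ ≤ ‖D.t‖ * R + ‖D.t‖ * R' := by linarith
    have hk : k ∈ Set.Icc (-(N : ℤ)) N := by
      have hL := D.L_pos
      have h5 : |(k : ℝ)| ≤ N := by
        have h6 : |(k : ℝ)| ≤ (‖D.t‖ * R + ‖D.t‖ * R') / D.L := by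
          rw [le_div_iff₀ hL]
          have h7 : |(k : ℝ) * D.L| = |(k : ℝ)| * D.L := by rw [abs_mul, abs_of_pos hL]
          rw [← h7]
          exact ht
        exact h6.trans (Nat.le_ceil _)
      rw [abs_le] at h5
      constructor
      · have := h5.1
        exact_mod_cast this
      · exact_mod_cast h5.2
    simp only [S, Set.mem_iUnion]
    refine ⟨k, hk, v, ⟨hv, ?_⟩, rfl⟩
    have e1 : v = ((D.A ^ k) y + v + (k * D.L : ℝ) • D.e) - (D.A ^ k) y - (k * D.L : ℝ) • D.e := by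
      abel
    have h8 : ‖(D.A ^ k) y‖ ≤ ‖((D.A ^ k : E d ≃L[ℝ] E d) : E d →L[ℝ] E d)‖ * R := by
      have := ((D.A ^ k : E d ≃L[ℝ] E d) : E d →L[ℝ] E d).le_opNorm y
      exact this.trans (by gcongr)
    calc ‖v‖ = ‖((D.A ^ k) y + v + (k * D.L : ℝ) • D.e) - (D.A ^ k) y - (k * D.L : ℝ) • D.e‖ := by
          rw [← e1]
      _ ≤ ‖((D.A ^ k) y + v + (k * D.L : ℝ) • D.e)‖ + ‖(D.A ^ k) y‖ + ‖(k * D.L : ℝ) • D.e‖ :=
          (norm_sub_le _ _).trans (by gcongr; exact norm_sub_le _ _)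
      _ ≤ _ := by gcongr

instance : IsCancelSMul D.Γ (E d) := by
  rw [isCancelSMul_iff_eq_one_of_smul_eq]
  intro g y h
  obtain ⟨k, v, hv, rfl⟩ := D.exists_gm g
  rw [D.gm_smul] at h
  have hk : k = 0 := by
    have h1 := D.t_apply_of k v hv y
    rw [h] at h1
    have h2 : (k : ℝ) * D.L = 0 := by linarith
    rcases mul_eq_zero.1 h2 with h3 | h3
    · exact_mod_cast h3
    · exact absurd h3 D.L_pos.ne'
  subst hk
  have hv0 : v = 0 := by
    have h1 : (D.A ^ (0 : ℤ)) y = y := rfl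
    rw [h1] at h
    simpa using h
  subst hv0
  apply Subtype.ext
  apply Equiv.ext
  intro z
  change (D.A ^ (0 : ℤ)) z + 0 + (((0 : ℤ) : ℝ) * D.L : ℝ) • D.e = z
  have h1 : (D.A ^ (0 : ℤ)) z = z := rfl
  rw [h1]; simp

/-- The quotient manifold. -/
abbrev Q : Type := MulAction.orbitRel.Quotient D.Γ (E d)

/-- The projection. -/
def proj : E d → D.Q := Quotient.mk _

theorem covering : IsCoveringMap D.proj :=
  isQuotientCoveringMap_quotientMk_of_properlyDiscontinuousSMul.isCoveringMap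

theorem proj_surj : Function.Surjective D.proj := Quotient.mk_surjective

theorem proj_eq_iff (x y : E d) : D.proj x = D.proj y ↔ ∃ g ∈ D.Γ, g x = y := by
  have h1 : D.proj x = D.proj y ↔ x ∈ MulAction.orbit D.Γ y := by
    unfold proj
    rw [Quotient.eq, MulAction.orbitRel_apply]
  rw [h1]
  constructor
  · rintro ⟨g, hg⟩
    refine ⟨(g⁻¹ : D.Γ), (g⁻¹).2, ?_⟩
    have : g • y = x := hg
    rw [← this]
    exact inv_smul_smul g y
  · rintro ⟨g, hg, rfl⟩
    refine ⟨⟨g, hg⟩⁻¹, ?_⟩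
    exact inv_smul_smul (⟨g, hg⟩ : D.Γ) x

theorem continuous_proj : Continuous D.proj := D.covering.continuous

theorem atlas_symm : ∀ c ∈ atlas (E d) D.Q, ∀ y : E d, c.symm y = D.proj y := by
  rintro c ⟨q, rfl⟩ y
  have := congrFun ((D.covering.isLocalHomeomorph).localInverseAt_symm
    (D.proj_surj.hasRightInverse.choose q)) y
  exact this

theorem trans_locally (c : OpenPartialHomeomorph D.Q (E d)) (hc : c ∈ atlas (E d) D.Q)
    (y : E d) (hy : D.proj y ∈ c.source) :
    ∃ g ∈ D.Γ, ∀ᶠ z in 𝓝 y, c (D.proj z) = g z := by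
  have h1 : D.proj (c (D.proj y)) = D.proj y := by
    rw [← D.atlas_symm c hc]; exact c.left_inv hy
  obtain ⟨g, hg, hgy⟩ := (D.proj_eq_iff y (c (D.proj y))).1 h1.symm
  refine ⟨g, hg, ?_⟩
  have h2 : g y ∈ c.target := by rw [hgy]; exact c.map_source hy
  have h3 : ∀ᶠ z in 𝓝 y, g z ∈ c.target :=
    (D.contDiff_of_mem hg).continuous.continuousAt.eventually (c.open_target.mem_nhds h2)
  filter_upwards [h3] with z hz
  have h4 : D.proj z = c.symm (g z) := by
    rw [D.atlas_symm c hc]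
    exact (D.proj_eq_iff z (g z)).2 ⟨g, hg, rfl⟩
  rw [h4, c.right_inv hz]

instance : IsManifold (𝓡 d) ∞ D.Q := by
  apply isManifold_of_contDiffOn
  intro c c' hc hc' y hy
  have hy' : y ∈ (c.symm ≫ₕ c').source := by simpa using hy.1
  have hy1 : y ∈ c.target := by
    have := hy'
    rw [OpenPartialHomeomorph.trans_source] at this
    exact this.1
  have hy2 : c.symm y ∈ c'.source := by
    have := hy'
    rw [OpenPartialHomeomorph.trans_source] at this
    exact this.2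
  rw [D.atlas_symm c hc] at hy2
  obtain ⟨g, hg, hgz⟩ := D.trans_locally c' hc' y hy2
  have h5 : ContDiffAt ℝ ∞ ((𝓡 d) ∘ (c.symm ≫ₕ c') ∘ (𝓡 d).symm) y := by
    have h6 : ContDiffAt ℝ ∞ g y := (D.contDiff_of_mem hg).contDiffAt
    refine h6.congr_of_eventuallyEq ?_
    filter_upwards [hgz] with z hz
    rw [← hz, ← D.atlas_symm c hc]
    rfl
  exact h5.contDiffWithinAt

instance : CompactSpace D.Q := by
  obtain ⟨R, hR⟩ := D.lat_cob
  have hK : IsCompact (Metric.closedBall (0 : E d) (D.L * ‖D.e‖ + R)) := isCompact_closedBall _ _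
  have h1 : D.proj '' (Metric.closedBall (0 : E d) (D.L * ‖D.e‖ + R)) = Set.univ := by
    apply Set.eq_univ_of_forall
    intro q
    obtain ⟨y, rfl⟩ := D.proj_surj q
    -- shift into the slab
    set k : ℤ := -⌊D.t y / D.L⌋ with hk
    have hL := D.L_pos
    set τ : ℝ := D.t y + k * D.L with hτ
    have hτ0 : 0 ≤ τ := by
      have := Int.floor_le (D.t y / D.L)
      rw [le_div_iff₀ hL] at this
      rw [hτ, hk]; push_cast; linarith
    have hτ1 : τ ≤ D.L := by
      have := Int.lt_floor_add_one (D.t y / D.L)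
      rw [div_lt_iff₀ hL] at this
      rw [hτ, hk]; push_cast; linarith
    set y1 : E d := (D.A ^ k) y + 0 + (k * D.L : ℝ) • D.e with hy1
    have ht1 : D.t y1 = τ := by
      rw [hy1, D.t_apply_of k 0 D.lat.zero_mem y]
    obtain ⟨v, hv, hvR⟩ := hR (y1 - τ • D.e) (by rw [map_sub, map_smul, D.t_e, ht1]; simp)
    refine ⟨y1 - v, ?_, ?_⟩
    · rw [mem_closedBall_zero_iff]
      have e1 : y1 - v = (y1 - τ • D.e - v) + τ • D.e := by abel
      rw [e1]
      calc ‖(y1 - τ • D.e - v) + τ • D.e‖ ≤ ‖y1 - τ • D.e - v‖ + ‖τ • D.e‖ := norm_add_le _ _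
        _ ≤ R + D.L * ‖D.e‖ := by
            rw [norm_smul, Real.norm_eq_abs, abs_of_nonneg hτ0]
            gcongr
        _ = _ := by ring
    · symm
      rw [D.proj_eq_iff]
      refine ⟨D.gm k (-v) (D.lat.neg_mem hv), (D.gm k (-v) (D.lat.neg_mem hv)).2, ?_⟩
      have := D.gm_smul k (-v) (D.lat.neg_mem hv) y
      rw [D.smul_def] at this
      rw [this, hy1]
      abel
  exact ⟨by rw [← h1]; exact hK.image D.continuous_proj⟩

instance : ConnectedSpace D.Q := by
  have : ConnectedSpace (E d) := inferInstance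
  exact D.proj_surj.connectedSpace D.continuous_proj

end AFData

theorem rowA {d : ℕ} (D : AFData d) : ∃ (M : Type) (_ : TopologicalSpace M)
    (_ : ChartedSpace (E d) M) (p : E d → M), IsQuot D.Γ p ∧ IsManifold (𝓡 d) ∞ M ∧
      T2Space M ∧ SecondCountableTopology M ∧ CompactSpace M ∧ ConnectedSpace M := by
  refine ⟨D.Q, inferInstance, inferInstance, D.proj, ?_, inferInstance, ?_, ?_, inferInstance,
    inferInstance⟩
  · exact
      { smooth := fun g hg => D.contDiff_of_mem hg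
        surj := D.proj_surj
        covering := D.covering
        orbit := D.proj_eq_iff
        atlas := D.atlas_symm }
  · exact t2Space_of_properlyDiscontinuousSMul_of_t2Space
  · exact ContinuousConstSMul.secondCountableTopology

end Pool.Agent.Helper30.AF
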